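import Pool.Agent.H.MP_529160_co.Logs

/-!
The base case: in a multigraph in which every `2r`-set has total deficit at least `r + 1`
(relative to multiplicity `a + 1`) some vertex has small logarithmic degree.
-/

namespace Pool.Agent.H.MP_529160_co

open Finset

section

variable {V : Type} [DecidableEq V]

/-- Twice the total deficit of `X` relative to multiplicity `a + 1`. -/
def cost2 (a : ℕ) (w : V → V → ℕ) (X : Finset V) : ℤ :=
  ∑ u ∈ X, ∑ v ∈ X.erase u, ((a : ℤ) + 1 - w u v)

/-- The deficit between `X` and `z`. -/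
def dz (a : ℕ) (w : V → V → ℕ) (X : Finset V) (z : V) : ℤ :=
  ∑ u ∈ X, ((a : ℤ) + 1 - w u z)

/-- Logarithmic degree of `u` inside `S`. -/
noncomputable def deg (w : V → V → ℕ) (S : Finset V) (u : V) : ℝ :=
  ∑ v ∈ S.erase u, Real.log (w u v)

lemma cost2_insert (a : ℕ) (w : V → V → ℕ) (hs : ∀ u v, w u v = w v u) {X : Finset V} {z : V}
    (hz : z ∉ X) : cost2 a w (insert z X) = cost2 a w X + 2 * dz a w X z := by
  unfold cost2 dz
  rw [sum_insert hz, erase_insert hz]
  have h1 : ∀ u ∈ X, ∑ v ∈ (insert z X).erase u, ((a : ℤ) + 1 - w u v) =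
      ((a : ℤ) + 1 - w u z) + ∑ v ∈ X.erase u, ((a : ℤ) + 1 - w u v) := by
    intro u hu
    have hne : z ≠ u := fun h => hz (h ▸ hu)
    rw [erase_insert_of_ne hne, sum_insert (fun h => hz (mem_of_mem_erase h))]
  rw [sum_congr rfl h1, sum_add_distrib]
  have h2 : ∑ v ∈ X, ((a : ℤ) + 1 - w z v) = ∑ v ∈ X, ((a : ℤ) + 1 - w v z) :=
    sum_congr rfl fun v _ => by rw [hs]
  rw [h2]
  ring

/-- The exponential growth rate of the extremal construction. -/
noncomputable def rate (r a : ℕ) : ℝ := Real.log (a + 1) - gap a / ((r : ℝ) - 1 + 1 / tau a)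

lemma den_pos {r a : ℕ} (hr : 1 ≤ r) (ha : 2 ≤ a) : 0 < (r : ℝ) - 1 + 1 / tau a := by
  have h1 : (1 : ℝ) ≤ r := by exact_mod_cast hr
  have h2 := two_le_tau ha
  have : 0 < 1 / tau a := by positivity
  linarith

lemma rate_nonneg {r a : ℕ} (hr : 2 ≤ r) (ha : 2 ≤ a) : 0 ≤ rate r a := by
  have h1 : (2 : ℝ) ≤ r := by exact_mod_cast hr
  have h2 := two_le_tau ha
  have h3 : 0 < 1 / tau a := by positivity
  have hg := gap_pos (show 1 ≤ a by omega)
  have h4 : gap a / ((r : ℝ) - 1 + 1 / tau a) ≤ gap a := by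
    apply div_le_self hg.le
    linarith
  have h5 : 0 ≤ Real.log a := Real.log_natCast_nonneg a
  unfold rate
  have h6 : gap a = Real.log (a + 1) - Real.log a := rfl
  linarith

lemma good_imp {r a M : ℕ} (hr : 2 ≤ r) (ha : 2 ≤ a) (hM1 : 1 ≤ M) (w : V → V → ℕ)
    {S X : Finset V} (hM : ∀ u ∈ S, ∀ v ∈ S, u ≠ v → w u v ≤ M)
    (hX : X ⊆ S) (hne : X.Nonempty) (hcard : X.card ≤ 3 * r) (ω : V → ℝ)
    (hω : ∀ u ∈ X, 0 < ω u) (hΩ : ∑ u ∈ X, ω u ≤ (r : ℝ) - 1 + 1 / tau a)
    (hz : ∀ z ∈ S \ X, gap a ≤ ∑ u ∈ X, ω u * (Real.log (a + 1) - Real.log (w u z))) :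
    ∃ u ∈ S, deg w S u ≤ rate r a * S.card + 3 * r * Real.log M := by
  set Ω := ∑ u ∈ X, ω u with hΩdef
  have hΩpos : 0 < Ω := sum_pos hω hne
  have hlogM : 0 ≤ Real.log M := Real.log_natCast_nonneg M
  set K := rate r a * S.card + 3 * r * Real.log M with hK
  have hdeg : ∀ u ∈ X, deg w S u ≤ 3 * r * Real.log M + ∑ z ∈ S \ X, Real.log (w u z) := by
    intro u hu
    have hsplit : S.erase u = (X.erase u) ∪ (S \ X) := by
      ext v
      simp only [mem_erase, mem_union, mem_sdiff]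
      constructor
      · rintro ⟨h1, h2⟩
        by_cases h3 : v ∈ X
        · exact Or.inl ⟨h1, h3⟩
        · exact Or.inr ⟨h2, h3⟩
      · rintro (⟨h1, h2⟩ | ⟨h1, h2⟩)
        · exact ⟨h1, hX h2⟩
        · exact ⟨fun h => h2 (h ▸ hu), h1⟩
    have hdisj : Disjoint (X.erase u) (S \ X) := by
      rw [disjoint_left]
      intro v h1 h2
      exact (mem_sdiff.1 h2).2 (mem_of_mem_erase h1)
    unfold deg
    rw [hsplit, sum_union hdisj]
    have h1 : ∑ v ∈ X.erase u, Real.log (w u v) ≤ 3 * r * Real.log M := by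
      calc ∑ v ∈ X.erase u, Real.log (w u v) ≤ ∑ v ∈ X.erase u, Real.log M := by
            apply sum_le_sum
            intro v hv
            have hv' := mem_erase.1 hv
            rcases Nat.eq_zero_or_pos (w u v) with h0 | h0
            · rw [h0]; simpa using hlogM
            · apply Real.log_le_log (by exact_mod_cast h0)
              exact_mod_cast hM u (hX hu) v (hX hv'.2) (Ne.symm hv'.1)
        _ = (X.erase u).card * Real.log M := by rw [sum_const, nsmul_eq_mul]
        _ ≤ 3 * r * Real.log M := by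
            apply mul_le_mul_of_nonneg_right _ hlogM
            have : (X.erase u).card ≤ 3 * r := (card_le_card (erase_subset _ _)).trans hcard
            exact_mod_cast this
    linarith
  have hsum : ∑ u ∈ X, ω u * deg w S u ≤ ∑ u ∈ X, ω u * K := by
    have h1 : ∑ u ∈ X, ω u * deg w S u ≤
        ∑ u ∈ X, ω u * (3 * r * Real.log M + ∑ z ∈ S \ X, Real.log (w u z)) :=
      sum_le_sum fun u hu => mul_le_mul_of_nonneg_left (hdeg u hu) (hω u hu).le
    have h2 : ∑ u ∈ X, ω u * (3 * r * Real.log M + ∑ z ∈ S \ X, Real.log (w u z)) =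
        Ω * (3 * r * Real.log M) + ∑ z ∈ S \ X, ∑ u ∈ X, ω u * Real.log (w u z) := by
      simp only [mul_add, sum_add_distrib, mul_sum]
      rw [sum_comm, ← sum_mul]
    have h3 : ∑ z ∈ S \ X, ∑ u ∈ X, ω u * Real.log (w u z) ≤
        ∑ z ∈ S \ X, Ω * rate r a := by
      apply sum_le_sum
      intro z hz'
      have h4 := hz z hz'
      have h5 : ∑ u ∈ X, ω u * (Real.log (a + 1) - Real.log (w u z)) =
          Ω * Real.log (a + 1) - ∑ u ∈ X, ω u * Real.log (w u z) := by
        simp only [mul_sub, sum_sub_distrib, ← sum_mul, hΩdef]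
      rw [h5] at h4
      have hd := den_pos (r := r) (a := a) (by omega) ha
      have hg := gap_pos (show 1 ≤ a by omega)
      have h6 : Ω * (gap a / ((r : ℝ) - 1 + 1 / tau a)) ≤ gap a := by
        rw [mul_div_assoc', div_le_iff₀ hd]
        nlinarith
      unfold rate
      nlinarith
    have h4 : ∑ z ∈ S \ X, Ω * rate r a ≤ S.card * (Ω * rate r a) := by
      rw [sum_const, nsmul_eq_mul]
      apply mul_le_mul_of_nonneg_right
      · exact_mod_cast card_le_card sdiff_subset
      · exact mul_nonneg hΩpos.le (rate_nonneg hr ha)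
    rw [← sum_mul, ← hΩdef, hK]
    calc ∑ u ∈ X, ω u * deg w S u ≤ _ := h1
      _ = _ := h2
      _ ≤ Ω * (3 * r * Real.log M) + S.card * (Ω * rate r a) := by linarith
      _ = Ω * (rate r a * S.card + 3 * r * Real.log M) := by ring
  obtain ⟨u, hu, hle⟩ := exists_le_of_sum_le hne hsum
  exact ⟨u, hX hu, le_of_mul_le_mul_left hle (hω u hu)⟩

end

end Pool.Agent.H.MP_529160_co
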