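import Pool.Agent.H.MP_529160_co.TSums

/-!
The base case `A(3,1,a,6)` for all `a ≥ 2`.
-/

namespace Pool.Agent.H.MP_529160_co

open Finset Filter Topology

lemma rate_pos {r a : ℕ} (hr : 2 ≤ r) (ha : 2 ≤ a) : 0 < rate r a := by
  have h1 : (2 : ℝ) ≤ r := by exact_mod_cast hr
  have h2 := two_le_tau ha
  have h3 : 0 < 1 / tau a := by positivity
  have hg := gap_pos (show 1 ≤ a by omega)
  have h4 : gap a / ((r : ℝ) - 1 + 1 / tau a) ≤ gap a := by
    apply div_le_self hg.le
    linarith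
  have h5 : 0 < Real.log a := Real.log_pos (by exact_mod_cast (by omega : 1 < a))
  unfold rate
  have h6 : gap a = Real.log (a + 1) - Real.log a := rfl
  linarith

/-- Upper bound for `(6, Σ_{3,1}(a,6))`-graphs. -/
lemma upper3 {a : ℕ} (ha : 2 ≤ a) : ∃ C : ℝ, 0 ≤ C ∧ ∀ n, 6 ≤ n → ∀ w : Fin n → Fin n → ℕ,
    IsSQ w 6 (SigmaMax 3 1 a 6) → edgeProd w ≠ 0 →
    2 * Real.log (edgeProd w) ≤ rate 3 a * (n : ℝ) ^ 2 + C * n := by
  refine ⟨rate 3 a + 6 * (3 : ℕ) * Real.log ((SigmaMax 3 1 a 6 + 1 : ℕ) : ℝ), ?_, ?_⟩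
  · have h1 := rate_nonneg (r := 3) (by norm_num) ha
    have h2 : 0 ≤ Real.log ((SigmaMax 3 1 a 6 + 1 : ℕ) : ℝ) := Real.log_natCast_nonneg _
    positivity
  · intro n hn w hw hprod
    rw [two_log_prod w hprod]
    have hpos : ∀ u v, u < v → 1 ≤ w u v := by
      intro u v huv
      unfold edgeProd at hprod
      rw [prod_ne_zero_iff] at hprod
      have := hprod (u, v) (by simp [huv])
      simp only at this
      omega
    have hle := hw.le (by norm_num) hn
    have h := upper_aux (r := 3) (a := a) (M := SigmaMax 3 1 a 6 + 1) (by norm_num) ha (by omega)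
      (sym w) (sym_comm' w) (fun u v huv => by
        unfold sym
        rcases lt_or_gt_of_ne huv with h1 | h1
        · rw [if_pos h1]; exact hpos u v h1
        · rw [if_neg (not_lt.2 h1.le)]; exact hpos v u h1)
      (fun u v huv => by
        unfold sym
        rcases lt_or_gt_of_ne huv with h1 | h1
        · rw [if_pos h1]; exact (hle u v h1).trans (by omega)
        · rw [if_neg (not_lt.2 h1.le)]; exact (hle v u h1).trans (by omega))
      (fun X hX => by
        rw [cost2_eq, hX]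
        have h1 := hw X (by rw [hX])
        have h2 := SigmaMax_six (a := a) (by omega)
        have h3 : edgeSum w X ≤ 15 * (a + 1) - 4 := h1.trans h2
        push_cast
        omega) n univ (by simp)
    exact h

/-- The base case. -/
theorem base3 {a : ℕ} (ha : 2 ≤ a) : Asym 3 1 a 6 := by
  obtain ⟨C, hC0, hC⟩ := upper3 ha
  set ρ := rate 3 a with hρ
  have hρ0 : 0 < ρ := rate_pos (by norm_num) ha
  set U : ℕ → ℝ := fun n => 2 * Real.log (exPi n 6 (SigmaMax 3 1 a 6)) with hU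
  set W : ℕ → ℝ := fun n => 2 * Real.log (PiMax 3 1 a n) with hW
  have hPi_pos : ∀ n, 0 < PiMax 3 1 a n := by
    intro n
    obtain ⟨w, hw, he⟩ := exists_PiMax (r := 3) (d := 1) (a := a) n (by norm_num)
    rw [he]
    exact edgeProd_pos (hw.pos (by omega))
  have hPi_le : ∀ n, 6 ≤ n → PiMax 3 1 a n ≤ exPi n 6 (SigmaMax 3 1 a 6) := by
    intro n hn
    obtain ⟨w, hw, he⟩ := exists_PiMax (r := 3) (d := 1) (a := a) n (by norm_num)
    rw [he]
    exact le_exPi (by norm_num) hn hw.isSQ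
  have hWU : ∀ n, 6 ≤ n → W n ≤ U n := by
    intro n hn
    simp only [hU, hW]
    have : Real.log (PiMax 3 1 a n) ≤ Real.log (exPi n 6 (SigmaMax 3 1 a 6)) :=
      Real.log_le_log (by exact_mod_cast hPi_pos n) (by exact_mod_cast hPi_le n hn)
    linarith
  have hUub : ∀ n, 6 ≤ n → U n ≤ ρ * (n : ℝ) ^ 2 + C * n := by
    intro n hn
    obtain ⟨w, hw, he⟩ := exists_exPi (n := n) (s := 6) (q := SigmaMax 3 1 a 6) (by norm_num) hn
    simp only [hU]
    rw [he]
    apply hC n hn w hw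
    rw [← he]
    have := hPi_le n hn
    have := hPi_pos n
    omega
  set D : ℝ := Real.log (a + 1) + 4 * gap a with hD
  have hWlb : ∀ n : ℕ, ρ * (n : ℝ) ^ 2 - D * n - 4 * gap a ≤ W n := fun n => PiMax_lower ha n
  -- limits
  have hinv : Tendsto (fun n : ℕ => (1 : ℝ) / n) atTop (𝓝 0) := tendsto_one_div_atTop_nhds_zero_nat
  have hinv2 : Tendsto (fun n : ℕ => ((1 : ℝ) / n) * (1 / n)) atTop (𝓝 0) := by
    simpa using hinv.mul hinv
  have hlimlow : Tendsto (fun n : ℕ => ρ - D * ((1 : ℝ) / n) - 4 * gap a * ((1 / n) * (1 / n)))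
      atTop (𝓝 ρ) := by
    have := ((tendsto_const_nhds (x := ρ)).sub (hinv.const_mul D)).sub
      (hinv2.const_mul (4 * gap a))
    simpa using this
  have hlimup : Tendsto (fun n : ℕ => ρ + C * ((1 : ℝ) / n)) atTop (𝓝 ρ) := by
    have := (tendsto_const_nhds (x := ρ)).add (hinv.const_mul C)
    simpa using this
  have hev : ∀ᶠ n : ℕ in atTop, 6 ≤ n := eventually_ge_atTop 6
  have lowW : ∀ᶠ n : ℕ in atTop, ρ - D * ((1 : ℝ) / n) - 4 * gap a * ((1 / n) * (1 / n)) ≤
      W n / (n : ℝ) ^ 2 := by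
    filter_upwards [hev] with n hn
    have hn' : (0 : ℝ) < n := by exact_mod_cast (by omega : 0 < n)
    rw [le_div_iff₀ (by positivity)]
    have := hWlb n
    have e : (ρ - D * ((1 : ℝ) / n) - 4 * gap a * ((1 / n) * (1 / n))) * (n : ℝ) ^ 2 =
        ρ * (n : ℝ) ^ 2 - D * n - 4 * gap a := by
      field_simp
    rw [e]; exact this
  have upU : ∀ᶠ n : ℕ in atTop, U n / (n : ℝ) ^ 2 ≤ ρ + C * ((1 : ℝ) / n) := by
    filter_upwards [hev] with n hn
    have hn' : (0 : ℝ) < n := by exact_mod_cast (by omega : 0 < n)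
    rw [div_le_iff₀ (by positivity)]
    have := hUub n hn
    have e : (ρ + C * ((1 : ℝ) / n)) * (n : ℝ) ^ 2 = ρ * (n : ℝ) ^ 2 + C * n := by
      field_simp
    rw [e]; exact this
  have WU : ∀ᶠ n : ℕ in atTop, W n / (n : ℝ) ^ 2 ≤ U n / (n : ℝ) ^ 2 := by
    filter_upwards [hev] with n hn
    have hn' : (0 : ℝ) < n := by exact_mod_cast (by omega : 0 < n)
    exact div_le_div_of_nonneg_right (hWU n hn) (by positivity)
  have limW : Tendsto (fun n : ℕ => W n / (n : ℝ) ^ 2) atTop (𝓝 ρ) :=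
    tendsto_of_tendsto_of_tendsto_of_le_of_le' hlimlow hlimup lowW
      (by filter_upwards [WU, upU] with n h1 h2 using h1.trans h2)
  have limU : Tendsto (fun n : ℕ => U n / (n : ℝ) ^ 2) atTop (𝓝 ρ) :=
    tendsto_of_tendsto_of_tendsto_of_le_of_le' hlimlow hlimup
      (by filter_upwards [WU, lowW] with n h1 h2 using h2.trans h1) upU
  refine ⟨fun n => (U n / (n : ℝ) ^ 2) / (W n / (n : ℝ) ^ 2) - 1, ?_, ?_⟩
  · have := (limU.div limW hρ0.ne').sub (tendsto_const_nhds (x := (1 : ℝ)))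
    rw [div_self hρ0.ne', sub_self] at this
    exact this
  · have hWpos : ∀ᶠ n : ℕ in atTop, 0 < W n / (n : ℝ) ^ 2 := limW.eventually (lt_mem_nhds hρ0)
    filter_upwards [hev, hWpos] with n hn hpos
    have hn' : (0 : ℝ) < n := by exact_mod_cast (by omega : 0 < n)
    have hWn : 0 < W n := by
      by_contra hcon
      rw [not_lt] at hcon
      have : W n / (n : ℝ) ^ 2 ≤ 0 := div_nonpos_of_nonpos_of_nonneg hcon (by positivity)
      linarith
    have e1 : (1 : ℝ) + ((U n / (n : ℝ) ^ 2) / (W n / (n : ℝ) ^ 2) - 1) = U n / W n := by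
      rw [div_div_div_cancel_right₀ (by positivity)]
      ring
    have hexpos : 0 < exPi n 6 (SigmaMax 3 1 a 6) := by
      have h1 := hPi_le n hn
      have h2 := hPi_pos n
      omega
    rw [e1, Real.rpow_def_of_pos (by exact_mod_cast hPi_pos n)]
    have e2 : Real.log (PiMax 3 1 a n) * (U n / W n) =
        Real.log (exPi n 6 (SigmaMax 3 1 a 6)) := by
      have h3 : W n = 2 * Real.log (PiMax 3 1 a n) := rfl
      have h4 : U n = 2 * Real.log (exPi n 6 (SigmaMax 3 1 a 6)) := rfl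
      have h5 : Real.log (PiMax 3 1 a n) ≠ 0 := by
        intro h6
        rw [h3, h6] at hWn
        simp at hWn
      rw [h3, h4]
      field_simp
    rw [e2, Real.exp_log (by exact_mod_cast hexpos)]

end Pool.Agent.H.MP_529160_co
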