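import Mathlib

/-!
Definitions: multigraphs, `(s, q)`-graphs, the extremal function and the class `T_{r,d}(a,n)`.
-/

namespace Pool.Agent.H.MP_529160_co

open Finset Filter Topology

/-- A multigraph on `Fin n` is given by `w : Fin n → Fin n → ℕ`, where for `u < v` the number
`w u v` is the multiplicity of the pair `{u, v}` (the other values of `w` are never used).
`edgeSum w X` is the sum of the multiplicities of the pairs inside `X`. -/
def edgeSum {n : ℕ} (w : Fin n → Fin n → ℕ) (X : Finset (Fin n)) : ℕ :=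
  ∑ p ∈ (X ×ˢ X).filter (fun p => p.1 < p.2), w p.1 p.2

/-- The product `P(G)` of all multiplicities. -/
def edgeProd {n : ℕ} (w : Fin n → Fin n → ℕ) : ℕ :=
  ∏ p ∈ ((univ : Finset (Fin n)) ×ˢ (univ : Finset (Fin n))).filter (fun p => p.1 < p.2), w p.1 p.2

/-- `(s, q)`-graphs: every `s`-set of vertices spans total multiplicity at most `q`. -/
def IsSQ {n : ℕ} (w : Fin n → Fin n → ℕ) (s q : ℕ) : Prop :=
  ∀ X : Finset (Fin n), X.card = s → edgeSum w X ≤ q

/-- `ex_Π(n, s, q)`, the maximum of `P(G)` over the `(s, q)`-graphs on `Fin n`. -/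
noncomputable def exPi (n s q : ℕ) : ℕ :=
  sSup {m | ∃ w : Fin n → Fin n → ℕ, IsSQ w s q ∧ m = edgeProd w}

/-- Membership in `T_{r,d}(a,n)`: the vertices are partitioned into `r` parts (part `i` is
`{v | f v = i}`), pairs inside part `0` have multiplicity `a - d`, pairs inside another part have
multiplicity `a` and all other pairs have multiplicity `a + 1`. -/
def InT {n : ℕ} (r d a : ℕ) (w : Fin n → Fin n → ℕ) : Prop :=
  ∃ f : Fin n → ℕ, (∀ v, f v < r) ∧
    ∀ u v, u < v → w u v = if f u = f v then (if f u = 0 then a - d else a) else a + 1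

/-- `Σ_{r,d}(a,n)`. -/
noncomputable def SigmaMax (r d a n : ℕ) : ℕ :=
  sSup {m | ∃ w : Fin n → Fin n → ℕ, InT r d a w ∧ m = edgeSum w univ}

/-- `Π_{r,d}(a,n)`. -/
noncomputable def PiMax (r d a n : ℕ) : ℕ :=
  sSup {m | ∃ w : Fin n → Fin n → ℕ, InT r d a w ∧ m = edgeProd w}

/-- The statement `A(r,d,a,s)`: `ex_Π(n, s, Σ_{r,d}(a,s)) = Π_{r,d}(a,n)^(1+o(1))`. -/
def Asym (r d a s : ℕ) : Prop :=
  ∃ o : ℕ → ℝ, Tendsto o atTop (𝓝 0) ∧
    ∀ᶠ n in atTop, (exPi n s (SigmaMax r d a s) : ℝ) = (PiMax r d a n : ℝ) ^ (1 + o n)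

end Pool.Agent.H.MP_529160_co
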