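import Pool.Agent.H.MP_529160_co.Defs

/-!
Basic facts about the extremal functions.
-/

namespace Pool.Agent.H.MP_529160_co

open Finset Filter Topology

lemma edgeProd_le {n M : ℕ} {w : Fin n → Fin n → ℕ} (hM : 1 ≤ M)
    (h : ∀ u v, u < v → w u v ≤ M) : edgeProd w ≤ M ^ (n * n) := by
  unfold edgeProd
  refine (prod_le_pow_card _ _ M fun p hp => h _ _ (mem_filter.1 hp).2).trans ?_
  apply Nat.pow_le_pow_right hM
  refine (card_filter_le _ _).trans ?_
  simp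

lemma edgeSum_le {n M : ℕ} {w : Fin n → Fin n → ℕ}
    (h : ∀ u v, u < v → w u v ≤ M) (X : Finset (Fin n)) : edgeSum w X ≤ n * n * M := by
  unfold edgeSum
  refine (sum_le_card_nsmul _ _ M fun p hp => h _ _ (mem_filter.1 hp).2).trans ?_
  rw [smul_eq_mul]
  apply Nat.mul_le_mul_right
  refine (card_filter_le _ _).trans ?_
  rw [card_product]
  have := card_le_univ X
  rw [Fintype.card_fin] at this
  exact Nat.mul_le_mul this this

lemma InT.le {n r d a : ℕ} {w : Fin n → Fin n → ℕ} (h : InT r d a w) :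
    ∀ u v, u < v → w u v ≤ a + 1 := by
  obtain ⟨f, -, hf⟩ := h
  intro u v huv
  rw [hf u v huv]
  split_ifs <;> omega

lemma InT.pos {n r d a : ℕ} {w : Fin n → Fin n → ℕ} (h : InT r d a w) (had : d + 1 ≤ a) :
    ∀ u v, u < v → 1 ≤ w u v := by
  obtain ⟨f, -, hf⟩ := h
  intro u v huv
  rw [hf u v huv]
  split_ifs <;> omega

lemma le_SigmaMax {n r d a : ℕ} {w : Fin n → Fin n → ℕ} (h : InT r d a w) :
    edgeSum w univ ≤ SigmaMax r d a n := by
  apply le_csSup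
  · refine ⟨n * n * (a + 1), ?_⟩
    rintro m ⟨w', hw', rfl⟩
    exact edgeSum_le hw'.le _
  · exact ⟨w, h, rfl⟩

lemma SigmaMax_le {n r d a B : ℕ} (hr : 1 ≤ r)
    (h : ∀ w : Fin n → Fin n → ℕ, InT r d a w → edgeSum w univ ≤ B) : SigmaMax r d a n ≤ B := by
  apply csSup_le
  · exact ⟨_, fun u v => if (0 : ℕ) = 0 then (if (0 : ℕ) = 0 then a - d else a) else a + 1,
      ⟨fun _ => 0, fun _ => (show 0 < r by omega), fun u v _ => rfl⟩, rfl⟩
  · rintro m ⟨w', hw', rfl⟩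
    exact h w' hw'

lemma le_PiMax {n r d a : ℕ} {w : Fin n → Fin n → ℕ} (h : InT r d a w) :
    edgeProd w ≤ PiMax r d a n := by
  apply le_csSup
  · refine ⟨(a + 1) ^ (n * n), ?_⟩
    rintro m ⟨w', hw', rfl⟩
    exact edgeProd_le (by omega) hw'.le
  · exact ⟨w, h, rfl⟩

lemma exists_PiMax {r d a : ℕ} (n : ℕ) (hr : 1 ≤ r) :
    ∃ w : Fin n → Fin n → ℕ, InT r d a w ∧ PiMax r d a n = edgeProd w := by
  have h : PiMax r d a n ∈ {m | ∃ w : Fin n → Fin n → ℕ, InT r d a w ∧ m = edgeProd w} := by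
    apply Nat.sSup_mem
    · exact ⟨_, fun u v => if (0 : ℕ) = 0 then (if (0 : ℕ) = 0 then a - d else a) else a + 1,
        ⟨fun _ => 0, fun _ => (show 0 < r by omega), fun u v _ => rfl⟩, rfl⟩
    · refine ⟨(a + 1) ^ (n * n), ?_⟩
      rintro m ⟨w', hw', rfl⟩
      exact edgeProd_le (by omega) hw'.le
  exact h

lemma edgeProd_pos {n : ℕ} {w : Fin n → Fin n → ℕ} (h : ∀ u v, u < v → 1 ≤ w u v) :
    0 < edgeProd w := by
  unfold edgeProd
  exact prod_pos fun p hp => h _ _ (mem_filter.1 hp).2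

/-- In an `(s, q)`-graph on at least `s` vertices all multiplicities are at most `q`. -/
lemma IsSQ.le {n s q : ℕ} {w : Fin n → Fin n → ℕ} (hs : 2 ≤ s) (hn : s ≤ n) (h : IsSQ w s q) :
    ∀ u v, u < v → w u v ≤ q := by
  intro u v huv
  have h1 : ({u, v} : Finset (Fin n)).card = 2 := card_pair huv.ne
  obtain ⟨X, hX1, -, hX2⟩ := exists_subsuperset_card_eq (subset_univ ({u, v} : Finset (Fin n)))
    (by omega : ({u, v} : Finset (Fin n)).card ≤ s) (by simpa using hn)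
  have h2 := h X hX2
  refine le_trans ?_ h2
  unfold edgeSum
  have hu : u ∈ X := hX1 (by simp)
  have hv : v ∈ X := hX1 (by simp)
  exact single_le_sum (f := fun p : Fin n × Fin n => w p.1 p.2) (fun _ _ => Nat.zero_le _)
    (show (u, v) ∈ (X ×ˢ X).filter (fun p => p.1 < p.2) by simp [hu, hv, huv])

lemma exPi_bdd {n s q : ℕ} (hs : 2 ≤ s) (hn : s ≤ n) :
    BddAbove {m | ∃ w : Fin n → Fin n → ℕ, IsSQ w s q ∧ m = edgeProd w} := by
  refine ⟨(q + 1) ^ (n * n), ?_⟩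
  rintro m ⟨w', hw', rfl⟩
  exact edgeProd_le (by omega) fun u v huv => (hw'.le hs hn u v huv).trans (by omega)

lemma le_exPi {n s q : ℕ} {w : Fin n → Fin n → ℕ} (hs : 2 ≤ s) (hn : s ≤ n) (h : IsSQ w s q) :
    edgeProd w ≤ exPi n s q :=
  le_csSup (exPi_bdd hs hn) ⟨w, h, rfl⟩

lemma exists_exPi {n s q : ℕ} (hs : 2 ≤ s) (hn : s ≤ n) :
    ∃ w : Fin n → Fin n → ℕ, IsSQ w s q ∧ exPi n s q = edgeProd w := by
  have h : exPi n s q ∈ {m | ∃ w : Fin n → Fin n → ℕ, IsSQ w s q ∧ m = edgeProd w} := by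
    apply Nat.sSup_mem
    · refine ⟨_, fun _ _ => 0, ?_, rfl⟩
      intro X _
      simp [edgeSum]
    · exact exPi_bdd hs hn
  exact h

/-- Members of `T_{r,d}(a,n)` are `(s, Σ_{r,d}(a,s))`-graphs. -/
lemma InT.isSQ {n r d a s : ℕ} {w : Fin n → Fin n → ℕ} (h : InT r d a w) :
    IsSQ w s (SigmaMax r d a s) := by
  intro X hX
  obtain ⟨f, hf1, hf2⟩ := h
  let e := X.orderEmbOfFin hX
  have h1 : InT r d a (fun i j : Fin s => w (e i) (e j)) :=
    ⟨fun i => f (e i), fun i => hf1 _, fun i j hij => hf2 _ _ (e.strictMono hij)⟩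
  refine le_trans (le_of_eq ?_) (le_SigmaMax h1)
  unfold edgeSum
  symm
  refine sum_nbij (fun p => (e p.1, e p.2)) ?_ ?_ ?_ ?_
  · intro p hp
    rw [mem_filter] at hp ⊢
    refine ⟨?_, e.strictMono hp.2⟩
    rw [mem_product]
    exact ⟨X.orderEmbOfFin_mem hX _, X.orderEmbOfFin_mem hX _⟩
  · intro p _ p' _ hpp
    simp only [Prod.mk.injEq] at hpp
    exact Prod.ext (e.injective hpp.1) (e.injective hpp.2)
  · intro p hp
    rw [coe_filter] at hp
    have hp' : (p.1 ∈ X ∧ p.2 ∈ X) ∧ p.1 < p.2 := by simpa using hp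
    have hr := X.range_orderEmbOfFin hX
    have m1 : p.1 ∈ Set.range e := by rw [hr]; exact hp'.1.1
    have m2 : p.2 ∈ Set.range e := by rw [hr]; exact hp'.1.2
    obtain ⟨i, hi⟩ := m1
    obtain ⟨j, hj⟩ := m2
    refine ⟨(i, j), ?_, ?_⟩
    · have : i < j := by
        rw [← e.lt_iff_lt, hi, hj]; exact hp'.2
      simpa using this
    · exact Prod.ext hi hj
  · intro p _; rfl

end Pool.Agent.H.MP_529160_co
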