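import Pool.Agent.H.MP_529160_co.Rook

/-!
Failure of `A(3,1,2,s)` for all `s ≥ 169`.
-/

namespace Pool.Agent.H.MP_529160_co

open Finset Filter Topology

lemma sum_same_mod (m k : ℕ) :
    ∑ u : Fin (m * k), ∑ v : Fin (m * k), (if u.val % m = v.val % m then (1 : ℝ) else 0) =
      m * (k : ℝ) ^ 2 := by
  rcases Nat.eq_zero_or_pos m with h0 | h0
  · subst h0
    have : IsEmpty (Fin (0 * k)) := by rw [zero_mul]; infer_instance
    simp
  rw [sum_same (univ : Finset (Fin (m * k))) (fun u => u.val % m) (range m)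
    (fun u _ => by rw [mem_range]; exact Nat.mod_lt _ h0)]
  have h1 : ∀ i ∈ range m,
      ((((univ : Finset (Fin (m * k))).filter fun u : Fin (m * k) => u.val % m = i).card : ℝ)) ^ 2
        = (k : ℝ) ^ 2 := by
    intro i hi
    rw [card_mod m k i (mem_range.1 hi)]
  rw [sum_congr rfl h1, sum_const, card_range, nsmul_eq_mul]

/-- The logarithm of the product of the construction on `42 k` vertices. -/
lemma rook_log (k : ℕ) : 2 * Real.log (edgeProd (rook (42 * k))) =
    (k : ℝ) ^ 2 * (1092 * Real.log 3 + 630 * Real.log 2) := by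
  rw [two_log_prod _ (edgeProd_pos (fun u v _ => rook_pos _ u v)).ne']
  unfold deg
  have h1 : ∑ u : Fin (42 * k), ∑ v ∈ univ.erase u, Real.log (sym (rook (42 * k)) u v) =
      ∑ u : Fin (42 * k), ∑ v ∈ univ.erase u, (Real.log 3 -
        (Real.log 3 - Real.log 2) * (if u.val % 3 = v.val % 3 then (1 : ℝ) else 0) -
        (Real.log 3 - Real.log 2) * (if u.val % 14 = v.val % 14 then (1 : ℝ) else 0) +
        (Real.log 3 - 2 * Real.log 2) * (if u.val % 42 = v.val % 42 then (1 : ℝ) else 0)) := by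
    apply sum_congr rfl
    intro u _
    apply sum_congr rfl
    intro v _
    rw [sym_rook]
    unfold rook
    by_cases h3 : u.val % 3 = v.val % 3
    · by_cases h14 : u.val % 14 = v.val % 14
      · have h42 : u.val % 42 = v.val % 42 := by omega
        rw [if_pos h3, if_pos h14, if_pos h3, if_pos h14, if_pos h42]
        norm_num
        ring
      · have h42 : u.val % 42 ≠ v.val % 42 := by omega
        rw [if_pos h3, if_neg h14, if_pos h3, if_neg h14, if_neg h42]
        norm_num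
    · by_cases h14 : u.val % 14 = v.val % 14
      · have h42 : u.val % 42 ≠ v.val % 42 := by omega
        rw [if_neg h3, if_pos h14, if_neg h3, if_pos h14, if_neg h42]
        norm_num
      · have h42 : u.val % 42 ≠ v.val % 42 := by omega
        rw [if_neg h3, if_neg h14, if_neg h3, if_neg h14, if_neg h42]
        norm_num
  rw [h1, sum_off_diag]
  have e3 : ∑ u : Fin (42 * k), ∑ v : Fin (42 * k),
      (if u.val % 3 = v.val % 3 then (1 : ℝ) else 0) = 588 * (k : ℝ) ^ 2 := by
    have h := sum_same_mod 3 (14 * k)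
    rw [show 3 * (14 * k) = 42 * k by ring] at h
    rw [h]; push_cast; ring
  have e14 : ∑ u : Fin (42 * k), ∑ v : Fin (42 * k),
      (if u.val % 14 = v.val % 14 then (1 : ℝ) else 0) = 126 * (k : ℝ) ^ 2 := by
    have h := sum_same_mod 14 (3 * k)
    rw [show 14 * (3 * k) = 42 * k by ring] at h
    rw [h]; push_cast; ring
  have e42 : ∑ u : Fin (42 * k), ∑ v : Fin (42 * k),
      (if u.val % 42 = v.val % 42 then (1 : ℝ) else 0) = 42 * (k : ℝ) ^ 2 := by
    have h := sum_same_mod 42 k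
    rw [h]; push_cast; ring
  simp only [sum_add_distrib, sum_sub_distrib, ← mul_sum, e3, e14, e42, if_true, mul_one,
    sum_const, card_univ, Fintype.card_fin, nsmul_eq_mul]
  push_cast
  ring

lemma tau_two : tau 2 = Real.log 3 / (Real.log 3 - Real.log 2) := by
  unfold tau gap
  norm_num

lemma gap_two : gap 2 = Real.log 3 - Real.log 2 := by
  unfold gap
  norm_num

lemma rate_two : rate 3 2 = Real.log 3 -
    Real.log 3 * (Real.log 3 - Real.log 2) / (2 * Real.log 3 + (Real.log 3 - Real.log 2)) := by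
  unfold rate
  rw [tau_two, gap_two]
  have h3 : 0 < Real.log 3 := Real.log_pos (by norm_num)
  have hB : 0 < Real.log 3 - Real.log 2 := by
    have := Real.log_lt_log (show (0 : ℝ) < 2 by norm_num) (show (2 : ℝ) < 3 by norm_num)
    linarith
  have e : ((2 : ℕ) : ℝ) + 1 = 3 := by norm_num
  rw [e]
  push_cast
  congr 1
  field_simp
  ring

/-- The numerical inequality `5/2 < log 3 / log (3/2) < 3` in disguise. -/
lemma rate_lt : rate 3 2 < (1092 * Real.log 3 + 630 * Real.log 2) / 1764 := by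
  rw [rate_two]
  set A := Real.log 3 with hA
  set B := Real.log 3 - Real.log 2 with hB
  have h2 : Real.log 2 = A - B := by rw [hB]; ring
  have hA0 : 0 < A := Real.log_pos (by norm_num)
  have h27 : 3 * Real.log 3 < 5 * Real.log 2 := by
    have e1 : (3 : ℝ) * Real.log 3 = Real.log 27 := by
      rw [show (27 : ℝ) = 3 ^ 3 by norm_num, Real.log_pow]; norm_num
    have e2 : (5 : ℝ) * Real.log 2 = Real.log 32 := by
      rw [show (32 : ℝ) = 2 ^ 5 by norm_num, Real.log_pow]; norm_num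
    rw [e1, e2]
    exact Real.log_lt_log (by norm_num) (by norm_num)
  have h8 : 3 * Real.log 2 < 2 * Real.log 3 := by
    have e1 : (3 : ℝ) * Real.log 2 = Real.log 8 := by
      rw [show (8 : ℝ) = 2 ^ 3 by norm_num, Real.log_pow]; norm_num
    have e2 : (2 : ℝ) * Real.log 3 = Real.log 9 := by
      rw [show (9 : ℝ) = 3 ^ 2 by norm_num, Real.log_pow]; norm_num
    rw [e1, e2]
    exact Real.log_lt_log (by norm_num) (by norm_num)
  rw [h2] at h27 h8 ⊢
  have k1 : 0 < 2 * A - 5 * B := by linarith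
  have k2 : 0 < 3 * B - A := by linarith
  have hB0 : 0 < B := by linarith
  have hden : 0 < 2 * A + B := by linarith
  have key : A - A * B / (2 * A + B) < (1092 * A + 630 * (A - B)) / 1764 := by
    rw [sub_lt_comm, lt_div_iff₀ hden]
    nlinarith [mul_pos k1 k2]
  exact key

/-- Upper bound for the products of the class `T_{3,1}(2,n)`. -/
lemma PiMax_upper (n : ℕ) : 2 * Real.log (PiMax 3 1 2 n) ≤ rate 3 2 * (n : ℝ) ^ 2 := by
  obtain ⟨w, ⟨f, hf1, hf2⟩, he⟩ := exists_PiMax (r := 3) (d := 1) (a := 2) n (by norm_num)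
  rw [he, two_log_InT (by norm_num) hf1 hf2, tau_gap (by norm_num), rate_two, gap_two]
  have hc := part_card (univ : Finset (Fin n)) f (fun v _ => hf1 v)
  rw [card_univ, Fintype.card_fin] at hc
  have hc' : (((univ.filter fun v => f v = 0).card : ℝ) + (univ.filter fun v => f v = 1).card +
      (univ.filter fun v => f v = 2).card) = n := by exact_mod_cast hc
  set m0 : ℝ := ((univ.filter fun v => f v = 0).card : ℝ)
  set m1 : ℝ := ((univ.filter fun v => f v = 1).card : ℝ)
  set m2 : ℝ := ((univ.filter fun v => f v = 2).card : ℝ)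
  have e3 : ((2 : ℕ) : ℝ) + 1 = 3 := by norm_num
  have e1 : Real.log (((2 : ℕ) : ℝ) - 1) = 0 := by norm_num
  rw [e3, e1, sub_zero]
  set A := Real.log 3 with hA
  set B := Real.log 3 - Real.log 2 with hB
  have hA0 : 0 < A := Real.log_pos (by norm_num)
  have hl2 : 0 < Real.log 2 := Real.log_pos (by norm_num)
  have hB0 : 0 < B := by
    have := Real.log_lt_log (show (0 : ℝ) < 2 by norm_num) (show (2 : ℝ) < 3 by norm_num)
    rw [hB]; linarith
  have hBA : B ≤ A := by rw [hB]; linarith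
  have hm1 : 0 ≤ m1 := Nat.cast_nonneg _
  have hm2 : 0 ≤ m2 := Nat.cast_nonneg _
  have hden : 0 < 2 * A + B := by linarith
  rw [← hc']
  have key : A * B / (2 * A + B) * (m0 + m1 + m2) ^ 2 ≤ A * m0 ^ 2 + B * (m1 ^ 2 + m2 ^ 2) := by
    rw [div_mul_eq_mul_div, div_le_iff₀ hden]
    nlinarith [sq_nonneg (A * m0 - B * m1), sq_nonneg (A * m0 - B * m2),
      mul_nonneg (mul_nonneg hA0.le hB0.le) (sq_nonneg (m1 - m2))]
  nlinarith [mul_nonneg hm1 (sub_nonneg.2 hBA), mul_nonneg hm2 (sub_nonneg.2 hBA)]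

/-- `A(3,1,2,s)` fails for all `s ≥ 169`. -/
theorem fails {s : ℕ} (hs : 169 ≤ s) : ¬ Asym 3 1 2 s := by
  rintro ⟨o, ho, hev⟩
  set ρ := rate 3 2 with hρ
  have hρ0 : 0 < ρ := by
    rw [hρ, rate_two]
    set A := Real.log 3
    have hA0 : 0 < A := Real.log_pos (by norm_num)
    have hl2 : 0 < Real.log 2 := Real.log_pos (by norm_num)
    have hB0 : 0 < A - Real.log 2 := by
      have := Real.log_lt_log (show (0 : ℝ) < 2 by norm_num) (show (2 : ℝ) < 3 by norm_num)
      linarith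
    rw [sub_pos, div_lt_iff₀ (by linarith)]
    nlinarith
  set ρ' := (1092 * Real.log 3 + 630 * Real.log 2) / 1764 with hρ'
  have hlt : ρ < ρ' := rate_lt
  have hε : 0 < (ρ' - ρ) / (2 * ρ) := by
    apply div_pos <;> linarith
  have ho' : ∀ᶠ n in atTop, o n < (ρ' - ρ) / (2 * ρ) := ho.eventually (gt_mem_nhds hε)
  obtain ⟨N, hN⟩ := (hev.and ho').exists_forall_of_atTop
  obtain ⟨k, hk⟩ : ∃ k, k = N + s + 1 := ⟨_, rfl⟩
  obtain ⟨h1, h2⟩ := hN (42 * k) (by omega)
  have hkpos : (0 : ℝ) < k := by exact_mod_cast (by omega : 0 < k)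
  have hPi_pos : 0 < PiMax 3 1 2 (42 * k) := by
    obtain ⟨w, hw, he⟩ := exists_PiMax (r := 3) (d := 1) (a := 2) (42 * k) (by norm_num)
    rw [he]
    exact edgeProd_pos (hw.pos (by omega))
  have hex : edgeProd (rook (42 * k)) ≤ exPi (42 * k) s (SigmaMax 3 1 2 s) :=
    le_exPi (by omega) (by omega) (rook_isSQ hs)
  have hrook_pos : 0 < edgeProd (rook (42 * k)) := edgeProd_pos (fun u v _ => rook_pos _ u v)
  have h3 : Real.log (edgeProd (rook (42 * k))) ≤
      Real.log (exPi (42 * k) s (SigmaMax 3 1 2 s)) :=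
    Real.log_le_log (by exact_mod_cast hrook_pos) (by exact_mod_cast hex)
  rw [h1, Real.log_rpow (by exact_mod_cast hPi_pos)] at h3
  have h4 := rook_log k
  have h5 := PiMax_upper (42 * k)
  have h6 : 0 ≤ Real.log (PiMax 3 1 2 (42 * k)) := Real.log_natCast_nonneg _
  have h7 : (1 + o (42 * k)) * Real.log (PiMax 3 1 2 (42 * k)) ≤
      (1 + (ρ' - ρ) / (2 * ρ)) * Real.log (PiMax 3 1 2 (42 * k)) :=
    mul_le_mul_of_nonneg_right (by linarith) h6
  have h8 : (1 + (ρ' - ρ) / (2 * ρ)) * (2 * Real.log (PiMax 3 1 2 (42 * k))) ≤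
      (1 + (ρ' - ρ) / (2 * ρ)) * (ρ * ((42 * k : ℕ) : ℝ) ^ 2) :=
    mul_le_mul_of_nonneg_left h5 (by linarith)
  have h9 : (1 + (ρ' - ρ) / (2 * ρ)) * ρ = (ρ + ρ') / 2 := by
    field_simp
    ring
  have h10 : (k : ℝ) ^ 2 * (1092 * Real.log 3 + 630 * Real.log 2) ≤
      (ρ + ρ') / 2 * (1764 * (k : ℝ) ^ 2) := by
    rw [← h4]
    calc 2 * Real.log (edgeProd (rook (42 * k))) ≤
        2 * ((1 + (ρ' - ρ) / (2 * ρ)) * Real.log (PiMax 3 1 2 (42 * k))) := by linarith
      _ = (1 + (ρ' - ρ) / (2 * ρ)) * (2 * Real.log (PiMax 3 1 2 (42 * k))) := by ring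
      _ ≤ _ := h8
      _ = (1 + (ρ' - ρ) / (2 * ρ)) * ρ * (1764 * (k : ℝ) ^ 2) := by push_cast; ring
      _ = _ := by rw [h9]
  have h11 : (k : ℝ) ^ 2 * (1092 * Real.log 3 + 630 * Real.log 2) =
      ρ' * (1764 * (k : ℝ) ^ 2) := by
    rw [hρ']; ring
  rw [h11] at h10
  have h12 : 0 < 1764 * (k : ℝ) ^ 2 := by positivity
  have h13 : ρ' ≤ (ρ + ρ') / 2 := le_of_mul_le_mul_right h10 h12
  linarith

end Pool.Agent.H.MP_529160_co
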