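import Mathlib

/-!
Elementary estimates for logarithms of integers.
-/

namespace Pool.Agent.H.MP_529160_co

open Real

/-- The gap `log (a+1) - log a`. -/
noncomputable def gap (a : ℕ) : ℝ := Real.log (a + 1) - Real.log a

/-- The ratio `(log (a+1) - log (a-1)) / (log (a+1) - log a)`. -/
noncomputable def tau (a : ℕ) : ℝ := (Real.log (a + 1) - Real.log (a - 1)) / gap a

lemma gap_pos {a : ℕ} (ha : 1 ≤ a) : 0 < gap a := by
  have h : (0 : ℝ) < a := by exact_mod_cast ha
  unfold gap
  have := Real.log_lt_log h (by linarith : (a : ℝ) < a + 1)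
  linarith

lemma gap_eq {a : ℕ} (ha : 1 ≤ a) : gap a = Real.log (1 + 1 / a) := by
  have h : (0 : ℝ) < a := by exact_mod_cast ha
  unfold gap
  rw [← Real.log_div (by positivity) (by positivity)]
  congr 1
  field_simp

lemma gap_le {a : ℕ} (ha : 1 ≤ a) : gap a ≤ 1 / a := by
  have h : (0 : ℝ) < a := by exact_mod_cast ha
  rw [gap_eq ha]
  have := Real.log_le_sub_one_of_pos (show (0 : ℝ) < 1 + 1 / a by positivity)
  linarith

lemma le_gap {a : ℕ} (ha : 1 ≤ a) : 1 / ((a : ℝ) + 1) ≤ gap a := by
  have h : (0 : ℝ) < a := by exact_mod_cast ha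
  unfold gap
  have h1 := Real.log_le_sub_one_of_pos (show (0 : ℝ) < a / (a + 1) by positivity)
  rw [Real.log_div (by positivity) (by positivity)] at h1
  have h2 : (a : ℝ) / (a + 1) - 1 = -(1 / (a + 1)) := by
    field_simp
    ring
  rw [h2] at h1
  linarith

/-- The chord inequality: `log w` lies below the chord through `a` and `a + 1`, for integers. -/
lemma log_le_chord {a w : ℕ} (ha : 1 ≤ a) (hw : 1 ≤ w) :
    gap a * ((a : ℝ) + 1 - w) ≤ Real.log (a + 1) - Real.log w := by
  have h : (0 : ℝ) < a := by exact_mod_cast ha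
  have h' : (0 : ℝ) < w := by exact_mod_cast hw
  rcases le_or_gt w a with hwa | hwa
  · have hwa' : (w : ℝ) ≤ a := by exact_mod_cast hwa
    have h1 := Real.log_le_sub_one_of_pos (show (0 : ℝ) < w / a by positivity)
    rw [Real.log_div (by positivity) (by positivity)] at h1
    have h2 : gap a * ((a : ℝ) - w) ≤ 1 / a * ((a : ℝ) - w) :=
      mul_le_mul_of_nonneg_right (gap_le ha) (by linarith)
    have h3 : 1 / (a : ℝ) * (a - w) = 1 - w / a := by field_simp
    have h4 : Real.log (a + 1) = gap a + Real.log a := by unfold gap; ring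
    rw [h4]
    nlinarith
  · have hwa' : (a : ℝ) + 1 ≤ w := by exact_mod_cast hwa
    have h1 := Real.log_le_sub_one_of_pos (show (0 : ℝ) < w / (a + 1) by positivity)
    rw [Real.log_div (by positivity) (by positivity)] at h1
    have h2 : 1 / ((a : ℝ) + 1) * ((w : ℝ) - (a + 1)) ≤ gap a * ((w : ℝ) - (a + 1)) :=
      mul_le_mul_of_nonneg_right (le_gap ha) (by linarith)
    have h3 : 1 / ((a : ℝ) + 1) * ((w : ℝ) - (a + 1)) = w / (a + 1) - 1 := by
      field_simp
    nlinarith

lemma tau_gap {a : ℕ} (ha : 1 ≤ a) : tau a * gap a = Real.log (a + 1) - Real.log (a - 1) := by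
  unfold tau
  rw [div_mul_cancel₀ _ (gap_pos ha).ne']

lemma two_le_tau {a : ℕ} (ha : 2 ≤ a) : 2 ≤ tau a := by
  have h : (2 : ℝ) ≤ a := by exact_mod_cast ha
  have hg := gap_pos (show 1 ≤ a by omega)
  have h1 : 2 * gap a ≤ tau a * gap a := by
    rw [tau_gap (by omega)]
    have h2 : Real.log (a + 1) + Real.log (a - 1) ≤ 2 * Real.log a := by
      rw [← Real.log_mul (by linarith) (by linarith)]
      have : (2 : ℝ) * Real.log a = Real.log (a ^ 2) := by
        rw [Real.log_pow]; norm_num
      rw [this]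
      apply Real.log_le_log
      · nlinarith
      · nlinarith
    unfold gap
    linarith
  exact le_of_mul_le_mul_right h1 hg

lemma tau_le_three {a : ℕ} (ha : 2 ≤ a) : tau a ≤ 3 := by
  have h : (2 : ℝ) ≤ a := by exact_mod_cast ha
  have hg := gap_pos (show 1 ≤ a by omega)
  have h1 : tau a * gap a ≤ 3 * gap a := by
    rw [tau_gap (by omega)]
    have h2 : 3 * Real.log a ≤ 2 * Real.log (a + 1) + Real.log (a - 1) := by
      have e1 : (3 : ℝ) * Real.log a = Real.log (a ^ 3) := by rw [Real.log_pow]; norm_num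
      have e2 : 2 * Real.log (a + 1) + Real.log (a - 1) =
          Real.log (((a : ℝ) + 1) ^ 2 * (a - 1)) := by
        rw [Real.log_mul (by positivity) (by linarith), Real.log_pow]; norm_num
      rw [e1, e2]
      apply Real.log_le_log
      · positivity
      · nlinarith
    unfold gap
    linarith
  exact le_of_mul_le_mul_right h1 hg

/-- Multiplicities at most `a - 1` cost at least `tau a`. -/
lemma tau_gap_le {a w : ℕ} (ha : 2 ≤ a) (hw : 1 ≤ w) (hwa : w + 1 ≤ a) :
    tau a * gap a ≤ Real.log (a + 1) - Real.log w := by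
  rw [tau_gap (by omega)]
  have h' : (0 : ℝ) < w := by exact_mod_cast hw
  have h1 : (w : ℝ) ≤ a - 1 := by
    have : ((w + 1 : ℕ) : ℝ) ≤ a := by exact_mod_cast hwa
    push_cast at this
    linarith
  have := Real.log_le_log h' h1
  linarith

end Pool.Agent.H.MP_529160_co
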