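import Pool.Agent.H.MP_529160_co.Struct3

/-!
The low degree vertex.
-/

namespace Pool.Agent.H.MP_529160_co

open Finset

section

variable {V : Type} [DecidableEq V]

lemma sum_fiber {r : ℕ} {X : Finset V} (f : V → Fin r) (ω : V → ℝ) :
    ∑ u ∈ X, ω u = ∑ i, ∑ u ∈ X.filter (fun u => f u = i), ω u :=
  (sum_fiberwise X f ω).symm

lemma str_card {r a : ℕ} {w : V → V → ℕ} {S X : Finset V} {f : V → Fin r}
    (h : Str r a w S X f) : X.card ≤ 3 * r := by
  have h1 : X.card = ∑ i, (X.filter fun u => f u = i).card :=
    card_eq_sum_card_fiberwise (fun _ _ => mem_univ _)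
  rw [h1]
  calc ∑ i, (X.filter fun u => f u = i).card ≤ ∑ i : Fin r, 3 := sum_le_sum fun i _ => (h.2.2 i).2
    _ = 3 * r := by simp [mul_comm]

lemma str_nonempty {r a : ℕ} (hr : 2 ≤ r) {w : V → V → ℕ} {S X : Finset V} {f : V → Fin r}
    (h : Str r a w S X f) : X.Nonempty := by
  have h1 := (h.2.2 ⟨0, by omega⟩).1
  obtain ⟨u, hu⟩ := card_pos.1 h1
  exact ⟨u, (mem_filter.1 hu).1⟩

/-- The key estimate: some vertex has small logarithmic degree. -/
theorem exists_low_deg {r a M : ℕ} (hr : 2 ≤ r) (ha : 2 ≤ a) (hM1 : 1 ≤ M) (w : V → V → ℕ)
    (hs : ∀ u v, w u v = w v u) {S : Finset V} (hS : S.Nonempty)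
    (hpos : ∀ u ∈ S, ∀ v ∈ S, u ≠ v → 1 ≤ w u v)
    (hM : ∀ u ∈ S, ∀ v ∈ S, u ≠ v → w u v ≤ M)
    (hP : ∀ X ⊆ S, X.card = 2 * r → 2 * ((r : ℤ) + 1) ≤ cost2 a w X) :
    ∃ u ∈ S, deg w S u ≤ rate r a * S.card + 3 * r * Real.log M := by
  classical
  by_contra hno
  have hc := clean hr ha hM1 w hs hpos hM hP hno
  obtain ⟨X0, f0, h0⟩ := exists_str hr ha w hs hS hpos hM hc hM1 hno
  obtain ⟨X, hX, hXmax⟩ := exists_max_image (S.powerset.filter fun X => ∃ f, Str r a w S X f) card
    ⟨X0, by rw [mem_filter, mem_powerset]; exact ⟨h0.1, f0, h0⟩⟩
  rw [mem_filter] at hX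
  obtain ⟨-, f, hstr⟩ := hX
  have hXS := hstr.1
  have htau2 := two_le_tau ha
  have htau3 := tau_le_three ha
  have hg := gap_pos (show 1 ≤ a by omega)
  have hinv : (1 : ℝ) / 3 ≤ 1 / tau a := one_div_le_one_div_of_le (by linarith) htau3
  -- facts about the values
  have hψ0 : ∀ z ∈ S \ X, ∀ u ∈ X, 0 ≤ Real.log (a + 1) - Real.log (w u z) := by
    intro z hz u hu
    rw [mem_sdiff] at hz
    have hne : u ≠ z := fun h => hz.2 (h ▸ hu)
    exact psi_nonneg (hpos u (hXS hu) z hz.1 hne) (w_le hr hs hc (hXS hu) hz.1 hne)
  have hψ1 : ∀ z ∈ S \ X, ∀ u ∈ X, w u z ≤ a → gap a ≤ Real.log (a + 1) - Real.log (w u z) := by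
    intro z hz u hu hw
    rw [mem_sdiff] at hz
    have hne : u ≠ z := fun h => hz.2 (h ▸ hu)
    exact gap_le_of_le (by omega) (hpos u (hXS hu) z hz.1 hne) hw
  have hψ2 : ∀ z ∈ S \ X, ∀ u ∈ X, w u z + 1 ≤ a →
      tau a * gap a ≤ Real.log (a + 1) - Real.log (w u z) := by
    intro z hz u hu hw
    rw [mem_sdiff] at hz
    have hne : u ≠ z := fun h => hz.2 (h ▸ hu)
    exact tau_gap_le ha (hpos u (hXS hu) z hz.1 hne) hw
  -- maximality
  have hmax : ∀ z ∈ S \ X, ∀ i, (X.filter fun u => f u = i).card ≤ 2 →
      (∀ u ∈ X, f u = i → w u z ≤ a) →
      (∃ u ∈ X, f u = i ∧ w u z + 1 ≤ a) ∨ (∃ u ∈ X, f u ≠ i ∧ w u z ≤ a) := by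
    intro z hz i hi hle
    rw [mem_sdiff] at hz
    by_contra hcon
    push Not at hcon
    have hw : ∀ u ∈ X, w u z = if f u = i then a else a + 1 := by
      intro u hu
      have hne : u ≠ z := fun h => hz.2 (h ▸ hu)
      have h3 := w_le hr hs hc (hXS hu) hz.1 hne
      split_ifs with hf
      · have h1 := hle u hu hf
        have h2 := hcon.1 u hu hf
        omega
      · have h2 := hcon.2 u hu hf
        omega
    have h1 := extend hs hstr hz.1 hz.2 hi hw
    have h2 := hXmax (insert z X) (by
      rw [mem_filter, mem_powerset]
      exact ⟨h1.1, _, h1⟩)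
    rw [card_insert_of_notMem hz.2] at h2
    omega
  obtain ⟨i0, hi0⟩ := exists_single hr hc hstr
  have hXne := str_nonempty hr hstr
  have hXcard := str_card hstr
  apply hno
  by_cases hcase : ∃ l, l ≠ i0 ∧ (X.filter fun u => f u = l).card ≤ 2
  · -- at least two small parts
    obtain ⟨l, hl, hl2⟩ := hcase
    set ω : V → ℝ := fun u => if (X.filter fun v => f v = f u).card = 1 then 2 / 3 else 1 / 3
      with hω
    have hω3 : ∀ u, 1 / 3 ≤ ω u := by
      intro u; simp only [hω]; split_ifs <;> norm_num
    have hpart : ∀ i, ∑ u ∈ X.filter (fun u => f u = i), ω u =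
        if (X.filter fun v => f v = i).card = 1 then 2 / 3
        else ((X.filter fun v => f v = i).card : ℝ) / 3 := by
      intro i
      have h1 : ∀ u ∈ X.filter (fun u => f u = i), ω u =
          if (X.filter fun v => f v = i).card = 1 then (2 / 3 : ℝ) else 1 / 3 := by
        intro u hu
        rw [mem_filter] at hu
        simp only [hω]
        rw [hu.2]
      rw [sum_congr rfl h1, sum_const, nsmul_eq_mul]
      split_ifs with h2
      · rw [h2]; norm_num
      · ring
    have hpart_le : ∀ i, ∑ u ∈ X.filter (fun u => f u = i), ω u ≤ 1 := by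
      intro i
      rw [hpart]
      have h2 := (hstr.2.2 i).2
      split_ifs
      · norm_num
      · have : ((X.filter fun v => f v = i).card : ℝ) ≤ 3 := by exact_mod_cast h2
        linarith
    have hpart_small : ∀ i, (X.filter fun v => f v = i).card ≤ 2 →
        ∑ u ∈ X.filter (fun u => f u = i), ω u = 2 / 3 := by
      intro i hi
      rw [hpart]
      have h1 := (hstr.2.2 i).1
      split_ifs with h2
      · rfl
      · have : (X.filter fun v => f v = i).card = 2 := by omega
        rw [this]; norm_num
    refine good_imp hr ha hM1 w hM hXS hXne hXcard ω (fun u _ => by linarith [hω3 u]) ?_ ?_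
    · rw [sum_fiber f]
      have h1 : ∑ i, ∑ u ∈ X.filter (fun u => f u = i), ω u ≤
          ∑ i : Fin r, (1 - (if i = i0 then (1 / 3 : ℝ) else 0) - (if i = l then (1 / 3 : ℝ) else 0)) := by
        apply sum_le_sum
        intro i _
        by_cases h2 : i = i0
        · subst h2
          rw [if_pos rfl, if_neg (Ne.symm hl), hpart_small i (by omega)]
          norm_num
        · rw [if_neg h2]
          by_cases h3 : i = l
          · subst h3
            rw [if_pos rfl, hpart_small i hl2]
            norm_num
          · rw [if_neg h3]
            linarith [hpart_le i]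
      rw [sum_sub_distrib, sum_sub_distrib, sum_ite_eq' univ i0, sum_ite_eq' univ l] at h1
      simp only [mem_univ, if_true, sum_const, card_univ, Fintype.card_fin, nsmul_eq_mul,
        mul_one] at h1
      linarith
    · intro z hz
      obtain ⟨i, hi⟩ := exists_part hr hs hc hstr (mem_sdiff.1 hz).1 (mem_sdiff.1 hz).2
      have hterm : ∀ u ∈ X, 0 ≤ ω u * (Real.log (a + 1) - Real.log (w u z)) := fun u hu =>
        mul_nonneg (by linarith [hω3 u]) (hψ0 z hz u hu)
      have hFi : (∑ u ∈ X.filter (fun u => f u = i), ω u) * gap a ≤
          ∑ u ∈ X.filter (fun u => f u = i), ω u * (Real.log (a + 1) - Real.log (w u z)) := by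
        rw [sum_mul]
        apply sum_le_sum
        intro u hu
        rw [mem_filter] at hu
        exact mul_le_mul_of_nonneg_left (hψ1 z hz u hu.1 (hi u hu.1 hu.2))
          (by linarith [hω3 u])
      by_cases h3 : (X.filter fun u => f u = i).card ≤ 2
      · rw [hpart_small i h3] at hFi
        rcases hmax z hz i h3 hi with ⟨u, hu, hfu, hwu⟩ | ⟨u, hu, hfu, hwu⟩
        · -- a multiplicity below `a`
          have hmem : u ∈ X.filter (fun u => f u = i) := by rw [mem_filter]; exact ⟨hu, hfu⟩
          have h4 : (∑ v ∈ X.filter (fun u => f u = i), ω v) * gap a + ω u * ((tau a - 1) * gap a) ≤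
              ∑ v ∈ X.filter (fun u => f u = i), ω v * (Real.log (a + 1) - Real.log (w v z)) := by
            rw [sum_mul, ← add_sum_erase _ _ hmem, ← add_sum_erase _ (fun v => ω v * (Real.log (a + 1) - Real.log (w v z))) hmem]
            have h5 : ∑ v ∈ (X.filter (fun u => f u = i)).erase u, ω v * gap a ≤
                ∑ v ∈ (X.filter (fun u => f u = i)).erase u,
                  ω v * (Real.log (a + 1) - Real.log (w v z)) := by
              apply sum_le_sum
              intro v hv
              have hv' := mem_filter.1 (mem_of_mem_erase hv)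
              exact mul_le_mul_of_nonneg_left (hψ1 z hz v hv'.1 (hi v hv'.1 hv'.2))
                (by linarith [hω3 v])
            have h6 : ω u * (tau a * gap a) ≤ ω u * (Real.log (a + 1) - Real.log (w u z)) :=
              mul_le_mul_of_nonneg_left (hψ2 z hz u hu hwu) (by linarith [hω3 u])
            nlinarith
          rw [hpart_small i h3] at h4
          have h5 : 1 / 3 * (1 * gap a) ≤ ω u * ((tau a - 1) * gap a) := by
            apply mul_le_mul (hω3 u) _ (by positivity) (by linarith [hω3 u])
            exact mul_le_mul_of_nonneg_right (by linarith) hg.le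
          calc gap a ≤ 2 / 3 * gap a + ω u * ((tau a - 1) * gap a) := by linarith
            _ ≤ _ := h4
            _ ≤ _ := sum_le_sum_of_subset_of_nonneg (filter_subset _ _)
                (fun v hv _ => hterm v hv)
        · -- another deficient vertex
          have hsub : insert u (X.filter fun u => f u = i) ⊆ X :=
            insert_subset hu (filter_subset _ _)
          have hnot : u ∉ X.filter fun u => f u = i := fun h => hfu (mem_filter.1 h).2
          have h5 : 1 / 3 * gap a ≤ ω u * (Real.log (a + 1) - Real.log (w u z)) :=
            mul_le_mul (hω3 u) (hψ1 z hz u hu hwu) hg.le (by linarith [hω3 u])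
          calc gap a ≤ ω u * (Real.log (a + 1) - Real.log (w u z)) +
                ∑ v ∈ X.filter (fun u => f u = i), ω v * (Real.log (a + 1) - Real.log (w v z)) := by
                linarith
            _ = ∑ v ∈ insert u (X.filter fun u => f u = i),
                ω v * (Real.log (a + 1) - Real.log (w v z)) := by rw [sum_insert hnot]
            _ ≤ _ := sum_le_sum_of_subset_of_nonneg hsub (fun v hv _ => hterm v hv)
      · have h4 : ∑ u ∈ X.filter (fun u => f u = i), ω u = 1 := by
          rw [hpart]
          have h5 := (hstr.2.2 i).2
          have h6 : (X.filter fun v => f v = i).card = 3 := by omega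
          rw [if_neg (by omega), h6]; norm_num
        rw [h4, one_mul] at hFi
        exact hFi.trans (sum_le_sum_of_subset_of_nonneg (filter_subset _ _)
          (fun v hv _ => hterm v hv))
  · -- exactly one small part
    push Not at hcase
    have h3 : ∀ l, l ≠ i0 → (X.filter fun u => f u = l).card = 3 := by
      intro l hl
      have h1 := hcase l hl
      have h2 := (hstr.2.2 l).2
      omega
    obtain ⟨u0, hu0⟩ := card_eq_one.1 hi0
    have hu0X : u0 ∈ X ∧ f u0 = i0 := by
      have : u0 ∈ X.filter fun u => f u = i0 := by rw [hu0]; simp
      exact mem_filter.1 this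
    set ω : V → ℝ := fun u => if f u = i0 then 1 / tau a else 1 / 3 with hω
    have hω3 : ∀ u, 1 / 3 ≤ ω u := by
      intro u; simp only [hω]; split_ifs
      · exact hinv
      · exact le_rfl
    have hpart0 : ∑ u ∈ X.filter (fun u => f u = i0), ω u = 1 / tau a := by
      rw [hu0, sum_singleton]
      simp only [hω]
      rw [if_pos hu0X.2]
    have hpart : ∀ i, i ≠ i0 → ∑ u ∈ X.filter (fun u => f u = i), ω u = 1 := by
      intro i hi
      have h1 : ∀ u ∈ X.filter (fun u => f u = i), ω u = 1 / 3 := by
        intro u hu
        rw [mem_filter] at hu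
        simp only [hω]
        rw [if_neg (by rw [hu.2]; exact hi)]
      rw [sum_congr rfl h1, sum_const, h3 i hi]; norm_num
    refine good_imp hr ha hM1 w hM hXS hXne hXcard ω (fun u _ => by linarith [hω3 u]) ?_ ?_
    · rw [sum_fiber f]
      have h1 : ∑ i, ∑ u ∈ X.filter (fun u => f u = i), ω u =
          ∑ i : Fin r, (1 - (if i = i0 then (1 - 1 / tau a : ℝ) else 0)) := by
        apply sum_congr rfl
        intro i _
        by_cases h2 : i = i0
        · subst h2
          rw [if_pos rfl, hpart0]; ring
        · rw [if_neg h2, hpart i h2]; ring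
      rw [h1, sum_sub_distrib, sum_ite_eq' univ i0]
      simp only [mem_univ, if_true, sum_const, card_univ, Fintype.card_fin, nsmul_eq_mul,
        mul_one]
      linarith
    · intro z hz
      obtain ⟨i, hi⟩ := exists_part hr hs hc hstr (mem_sdiff.1 hz).1 (mem_sdiff.1 hz).2
      have hterm : ∀ u ∈ X, 0 ≤ ω u * (Real.log (a + 1) - Real.log (w u z)) := fun u hu =>
        mul_nonneg (by linarith [hω3 u]) (hψ0 z hz u hu)
      by_cases hii : i = i0
      · subst hii
        have hw0 := hi u0 hu0X.1 hu0X.2
        have hω0 : ω u0 = 1 / tau a := by simp only [hω]; rw [if_pos hu0X.2]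
        rcases Nat.lt_or_ge (w u0 z) a with hlt | hge
        · have h5 : gap a ≤ ω u0 * (Real.log (a + 1) - Real.log (w u0 z)) := by
            rw [hω0]
            have h6 := mul_le_mul_of_nonneg_left (hψ2 z hz u0 hu0X.1 (by omega))
              (show (0 : ℝ) ≤ 1 / tau a by positivity)
            have h7 : 1 / tau a * (tau a * gap a) = gap a := by
              field_simp
            rwa [h7] at h6
          exact h5.trans (single_le_sum (f := fun u => ω u * (Real.log (a + 1) - Real.log (w u z)))
            (fun v hv => hterm v hv) hu0X.1)
        · have hw0' : w u0 z = a := le_antisymm hw0 hge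
          -- another part with two deficient vertices
          have hex : ∃ l, l ≠ i ∧ 2 ≤ (X.filter fun u => f u = l ∧ w u z ≤ a).card := by
            by_contra hcon
            push Not at hcon
            have hbig : ∀ l, l ≠ i → 2 ≤ (X.filter fun u => f u = l ∧ ¬ w u z ≤ a).card := by
              intro l hl
              have h1 := hcon l hl
              have h2 := h3 l hl
              have h4 := card_filter_add_card_filter_not (s := X.filter fun u => f u = l)
                (fun u => w u z ≤ a)
              rw [filter_filter, filter_filter] at h4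
              omega
            have hsel : ∀ l, ∃ Y ⊆ X.filter (fun u => f u = l),
                Y.card = (if l = i then 1 else 2) ∧
                ∀ u ∈ Y, w u z = if l = i then a else a + 1 := by
              intro l
              by_cases hl : l = i
              · refine ⟨{u0}, ?_, ?_, ?_⟩
                · rw [hl, hu0]
                · rw [if_pos hl]; simp
                · intro u hu
                  rw [mem_singleton] at hu
                  rw [if_pos hl, hu, hw0']
              · obtain ⟨Y, hY, hYc⟩ := exists_subset_card_eq (hbig l hl)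
                refine ⟨Y, ?_, ?_, ?_⟩
                · intro u hu
                  have := mem_filter.1 (hY hu)
                  rw [mem_filter]; exact ⟨this.1, this.2.1⟩
                · rw [if_neg hl, hYc]
                · intro u hu
                  have h5 := mem_filter.1 (hY hu)
                  have hne : u ≠ z := fun h => (mem_sdiff.1 hz).2 (h ▸ h5.1)
                  have h6 := w_le hr hs hc (hXS h5.1) (mem_sdiff.1 hz).1 hne
                  rw [if_neg hl]
                  omega
            choose g hgs hgc hgw using hsel
            obtain ⟨e1, e2, e3⟩ := select g hgs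
            have hzY : z ∉ univ.biUnion g := fun h => (mem_sdiff.1 hz).2 (e1 h)
            have hmemg : ∀ u ∈ univ.biUnion g, u ∈ g (f u) := by
              intro u hu
              have : u ∈ (univ.biUnion g).filter (fun y => f y = f u) := by
                rw [mem_filter]; exact ⟨hu, rfl⟩
              rwa [e2] at this
            have hcardY : (univ.biUnion g).card + 1 = 2 * r := by
              rw [e3]
              have h5 : ∑ l, (g l).card = ∑ l : Fin r, (2 - if l = i then 1 else 0) := by
                apply sum_congr rfl
                intro l _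
                rw [hgc]; split_ifs <;> rfl
              have h6 : ∑ l, (g l).card + ∑ l : Fin r, (if l = i then 1 else 0) =
                  ∑ l : Fin r, 2 := by
                rw [← sum_add_distrib]
                apply sum_congr rfl
                intro l _
                rw [hgc]; split_ifs <;> rfl
              rw [sum_ite_eq' univ i] at h6
              simp only [mem_univ, if_true, sum_const, card_univ, Fintype.card_fin,
                smul_eq_mul] at h6
              omega
            have hu0Y : u0 ∈ univ.biUnion g := by
              rw [mem_biUnion]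
              refine ⟨i, mem_univ _, ?_⟩
              have h5 : (g i).card = 1 := by rw [hgc, if_pos rfl]
              obtain ⟨x, hx⟩ := card_eq_one.1 h5
              have h6 : x ∈ X.filter fun u => f u = i := hgs i (by rw [hx]; simp)
              rw [hu0, mem_singleton] at h6
              rw [hx, h6]; simp
            have huniq : ∀ u ∈ univ.biUnion g, f u = i → u = u0 := by
              intro u hu hfu
              have h5 : u ∈ X.filter fun u => f u = i := by
                rw [mem_filter]; exact ⟨e1 hu, hfu⟩
              rw [hu0] at h5
              exact mem_singleton.1 h5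
            have hcost : cost2 a w (univ.biUnion g) = (univ.biUnion g).card - 1 := by
              rw [cost2_str hstr e1]
              have h5 : ∀ u ∈ univ.biUnion g,
                  ((((univ.biUnion g).filter fun v => f v = f u).card : ℤ) - 1) =
                  1 - if u = u0 then 1 else 0 := by
                intro u hu
                rw [e2 (f u), hgc]
                by_cases h6 : f u = i
                · rw [if_pos h6, if_pos (huniq u hu h6)]; norm_num
                · rw [if_neg h6, if_neg (fun h => h6 (by rw [h]; exact hu0X.2))]; norm_num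
              rw [sum_congr rfl h5, sum_sub_distrib, sum_ite_eq' _ u0, if_pos hu0Y]
              simp
            have hdz : dz a w (univ.biUnion g) z = 1 := by
              unfold dz
              have h5 : ∀ u ∈ univ.biUnion g, ((a : ℤ) + 1 - w u z) =
                  if u = u0 then 1 else 0 := by
                intro u hu
                rw [hgw (f u) u (hmemg u hu)]
                by_cases h6 : f u = i
                · rw [if_pos h6, if_pos (huniq u hu h6)]; ring
                · rw [if_neg h6, if_neg (fun h => h6 (by rw [h]; exact hu0X.2))]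
                  push_cast; ring
              rw [sum_congr rfl h5, sum_ite_eq' _ u0, if_pos hu0Y]
            have h5 := hc (2 * r) le_rfl (insert z (univ.biUnion g))
              (insert_subset (mem_sdiff.1 hz).1 (e1.trans hXS))
              (by rw [card_insert_of_notMem hzY]; exact hcardY)
            rw [cost2_insert a w hs hzY, hcost, hdz] at h5
            unfold cT at h5
            rw [if_neg (by omega), if_neg (by omega)] at h5
            omega
          obtain ⟨l, hl, hl2⟩ := hex
          have hsub : insert u0 (X.filter fun u => f u = l ∧ w u z ≤ a) ⊆ X :=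
            insert_subset hu0X.1 (filter_subset _ _)
          have hnot : u0 ∉ X.filter fun u => f u = l ∧ w u z ≤ a := fun h =>
            hl ((mem_filter.1 h).2.1.symm.trans hu0X.2)
          have h5 : 1 / 3 * gap a ≤ ω u0 * (Real.log (a + 1) - Real.log (w u0 z)) :=
            mul_le_mul (hω3 u0) (hψ1 z hz u0 hu0X.1 hw0) hg.le (by linarith [hω3 u0])
          have h6 : (2 : ℝ) * (1 / 3 * gap a) ≤ ∑ v ∈ X.filter (fun u => f u = l ∧ w u z ≤ a),
              ω v * (Real.log (a + 1) - Real.log (w v z)) := by
            calc (2 : ℝ) * (1 / 3 * gap a) ≤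
                ((X.filter fun u => f u = l ∧ w u z ≤ a).card : ℝ) * (1 / 3 * gap a) := by
                  apply mul_le_mul_of_nonneg_right _ (by positivity)
                  exact_mod_cast hl2
              _ = ∑ v ∈ X.filter (fun u => f u = l ∧ w u z ≤ a), 1 / 3 * gap a := by
                  rw [sum_const, nsmul_eq_mul]
              _ ≤ _ := by
                  apply sum_le_sum
                  intro v hv
                  rw [mem_filter] at hv
                  exact mul_le_mul (hω3 v) (hψ1 z hz v hv.1 hv.2.2) hg.le (by linarith [hω3 v])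
          calc gap a ≤ ω u0 * (Real.log (a + 1) - Real.log (w u0 z)) +
                ∑ v ∈ X.filter (fun u => f u = l ∧ w u z ≤ a),
                  ω v * (Real.log (a + 1) - Real.log (w v z)) := by linarith
            _ = ∑ v ∈ insert u0 (X.filter fun u => f u = l ∧ w u z ≤ a),
                ω v * (Real.log (a + 1) - Real.log (w v z)) := by rw [sum_insert hnot]
            _ ≤ _ := sum_le_sum_of_subset_of_nonneg hsub (fun v hv _ => hterm v hv)
      · have hFi : (∑ u ∈ X.filter (fun u => f u = i), ω u) * gap a ≤
            ∑ u ∈ X.filter (fun u => f u = i), ω u * (Real.log (a + 1) - Real.log (w u z)) := by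
          rw [sum_mul]
          apply sum_le_sum
          intro u hu
          rw [mem_filter] at hu
          exact mul_le_mul_of_nonneg_left (hψ1 z hz u hu.1 (hi u hu.1 hu.2))
            (by linarith [hω3 u])
        rw [hpart i hii, one_mul] at hFi
        exact hFi.trans (sum_le_sum_of_subset_of_nonneg (filter_subset _ _)
          (fun v hv _ => hterm v hv))

end

end Pool.Agent.H.MP_529160_co
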