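import Pool.Agent.H.MP_529160_co.Defs
import Pool.Agent.H.MP_529160_co.Low

/-!
Sums over pairs.
-/

namespace Pool.Agent.H.MP_529160_co

open Finset Filter Topology

/-- Symmetrisation. -/
def sym {n : ℕ} (w : Fin n → Fin n → ℕ) (u v : Fin n) : ℕ := if u < v then w u v else w v u

lemma sym_comm {n : ℕ} (w : Fin n → Fin n → ℕ) (u v : Fin n) (h : u ≠ v) :
    sym w u v = sym w v u := by
  unfold sym
  rcases lt_or_gt_of_ne h with h1 | h1
  · rw [if_pos h1, if_neg (not_lt.2 h1.le)]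
  · rw [if_neg (not_lt.2 h1.le), if_pos h1]

lemma sym_comm' {n : ℕ} (w : Fin n → Fin n → ℕ) (u v : Fin n) : sym w u v = sym w v u := by
  by_cases h : u = v
  · rw [h]
  · exact sym_comm w u v h

/-- A sum over ordered pairs of distinct elements is twice the sum over increasing pairs. -/
lemma sum_pairs {n : ℕ} {R : Type} [CommRing R] (F : Fin n → Fin n → R)
    (hF : ∀ u v, F u v = F v u) (X : Finset (Fin n)) :
    ∑ u ∈ X, ∑ v ∈ X.erase u, F u v =
      2 * ∑ p ∈ (X ×ˢ X).filter (fun p => p.1 < p.2), F p.1 p.2 := by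
  have h1 : ∑ u ∈ X, ∑ v ∈ X.erase u, F u v =
      ∑ p ∈ (X ×ˢ X).filter (fun p => p.1 ≠ p.2), F p.1 p.2 := by
    rw [sum_filter, sum_product]
    apply sum_congr rfl
    intro u hu
    rw [← sum_filter]
    apply sum_congr _ fun _ _ => rfl
    ext v
    simp only [mem_erase, mem_filter]
    tauto
  have h2 : (X ×ˢ X).filter (fun p => p.1 ≠ p.2) =
      (X ×ˢ X).filter (fun p => p.1 < p.2) ∪ (X ×ˢ X).filter (fun p => p.2 < p.1) := by
    ext p
    simp only [mem_union, mem_filter, ne_iff_lt_or_gt]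
    tauto
  have h3 : Disjoint ((X ×ˢ X).filter (fun p => p.1 < p.2))
      ((X ×ˢ X).filter (fun p => p.2 < p.1)) := by
    rw [disjoint_left]
    intro p hp hp'
    exact lt_asymm (mem_filter.1 hp).2 (mem_filter.1 hp').2
  have h4 : ∑ p ∈ (X ×ˢ X).filter (fun p => p.2 < p.1), F p.1 p.2 =
      ∑ p ∈ (X ×ˢ X).filter (fun p => p.1 < p.2), F p.1 p.2 := by
    refine sum_nbij' (fun p => (p.2, p.1)) (fun p => (p.2, p.1)) ?_ ?_ ?_ ?_ ?_
    · intro p hp
      simp only [mem_filter, mem_product] at hp ⊢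
      tauto
    · intro p hp
      simp only [mem_filter, mem_product] at hp ⊢
      tauto
    · intro p _; rfl
    · intro p _; rfl
    · intro p _; exact hF _ _
  rw [h1, h2, sum_union h3, h4]
  ring

lemma sym_of_lt {n : ℕ} (w : Fin n → Fin n → ℕ) {u v : Fin n} (h : u < v) :
    sym w u v = w u v := if_pos h

lemma cost2_eq {n : ℕ} (a : ℕ) (w : Fin n → Fin n → ℕ) (X : Finset (Fin n)) :
    cost2 a (sym w) X = ((a : ℤ) + 1) * (X.card * (X.card - 1)) - 2 * edgeSum w X := by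
  unfold cost2 edgeSum
  rw [sum_pairs (fun u v => ((a : ℤ) + 1 - sym w u v)) (fun u v => by rw [sym_comm'])]
  have h1 : ∑ p ∈ (X ×ˢ X).filter (fun p => p.1 < p.2), ((a : ℤ) + 1 - sym w p.1 p.2) =
      ∑ p ∈ (X ×ˢ X).filter (fun p => p.1 < p.2), ((a : ℤ) + 1) -
      ((∑ p ∈ (X ×ˢ X).filter (fun p => p.1 < p.2), w p.1 p.2 : ℕ) : ℤ) := by
    rw [sum_sub_distrib]
    push_cast
    congr 1
    apply sum_congr rfl
    intro p hp
    rw [sym_of_lt w (mem_filter.1 hp).2]
  rw [h1, mul_sub, ← sum_pairs (fun _ _ => ((a : ℤ) + 1)) (fun _ _ => rfl)]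
  have h2 : ∑ u ∈ X, ∑ v ∈ X.erase u, ((a : ℤ) + 1) = ((a : ℤ) + 1) * (X.card * (X.card - 1)) := by
    have h3 : ∀ u ∈ X, ∑ v ∈ X.erase u, ((a : ℤ) + 1) = ((a : ℤ) + 1) * (X.card - 1) := by
      intro u hu
      rw [sum_const, card_erase_of_mem hu, nsmul_eq_mul]
      have : 1 ≤ X.card := card_pos.2 ⟨u, hu⟩
      push_cast [Nat.cast_sub this]
      ring
    rw [sum_congr rfl h3, sum_const, nsmul_eq_mul]
    ring
  rw [h2]

/-- The logarithm of the product. -/
lemma two_log_prod {n : ℕ} (w : Fin n → Fin n → ℕ) (hw : edgeProd w ≠ 0) :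
    2 * Real.log (edgeProd w) = ∑ u, deg (sym w) univ u := by
  unfold deg
  rw [sum_pairs (fun u v => Real.log (sym w u v)) (fun u v => by rw [sym_comm'])]
  congr 1
  unfold edgeProd at hw ⊢
  push_cast
  rw [Real.log_prod]
  · apply sum_congr rfl
    intro p hp
    rw [sym_of_lt w (mem_filter.1 hp).2]
  · intro p hp
    rw [prod_ne_zero_iff] at hw
    exact_mod_cast hw p hp

end Pool.Agent.H.MP_529160_co
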