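import Pool.Agent.H.MP_529160_co.Pairs

/-!
The upper bound in the base case.
-/

namespace Pool.Agent.H.MP_529160_co

open Finset Filter Topology

lemma deg_sum {V : Type} [DecidableEq V] (w : V → V → ℕ) (hs : ∀ u v, w u v = w v u)
    {S : Finset V} {u : V} (hu : u ∈ S) :
    ∑ x ∈ S, deg w S x = ∑ x ∈ S.erase u, deg w (S.erase u) x + 2 * deg w S u := by
  rw [← add_sum_erase S _ hu]
  have h1 : ∀ x ∈ S.erase u, deg w S x = Real.log (w x u) + deg w (S.erase u) x := by
    intro x hx
    rw [mem_erase] at hx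
    unfold deg
    have h2 : S.erase x = insert u ((S.erase u).erase x) := by
      ext v
      simp only [mem_erase, mem_insert]
      constructor
      · rintro ⟨h3, h4⟩
        by_cases h5 : v = u
        · exact Or.inl h5
        · exact Or.inr ⟨h3, h5, h4⟩
      · rintro (rfl | ⟨h3, h4, h5⟩)
        · exact ⟨Ne.symm hx.1, hu⟩
        · exact ⟨h3, h5⟩
    rw [h2, sum_insert (by simp)]
  rw [sum_congr rfl h1, sum_add_distrib]
  have h3 : ∑ x ∈ S.erase u, Real.log (w x u) = deg w S u := by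
    unfold deg
    exact sum_congr rfl fun x _ => by rw [hs]
  rw [h3]
  ring

lemma upper_aux {V : Type} [DecidableEq V] {r a M : ℕ} (hr : 2 ≤ r) (ha : 2 ≤ a) (hM1 : 1 ≤ M)
    (w : V → V → ℕ) (hs : ∀ u v, w u v = w v u) (hpos : ∀ u v, u ≠ v → 1 ≤ w u v)
    (hM : ∀ u v, u ≠ v → w u v ≤ M)
    (hP : ∀ X : Finset V, X.card = 2 * r → 2 * ((r : ℤ) + 1) ≤ cost2 a w X) (m : ℕ) :
    ∀ S : Finset V, S.card = m → ∑ u ∈ S, deg w S u ≤
      rate r a * (m : ℝ) ^ 2 + (rate r a + 6 * r * Real.log M) * m := by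
  induction m with
  | zero =>
    intro S hS
    rw [card_eq_zero] at hS
    rw [hS]
    simp
  | succ m ih =>
    intro S hS
    have hne : S.Nonempty := card_pos.1 (by omega)
    obtain ⟨u, hu, hdeg⟩ := exists_low_deg hr ha hM1 w hs hne (fun x _ y _ h => hpos x y h)
      (fun x _ y _ h => hM x y h) (fun X _ hX => hP X hX)
    have h1 := ih (S.erase u) (by rw [card_erase_of_mem hu, hS]; rfl)
    rw [deg_sum w hs hu]
    rw [hS] at hdeg
    push_cast at hdeg ⊢
    nlinarith

end Pool.Agent.H.MP_529160_co
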