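import Pool.Agent.H.MP_529160_co.Ext
import Pool.Agent.H.MP_529160_co.Upper

/-!
Sums over the pairs of a partitioned set.
-/

namespace Pool.Agent.H.MP_529160_co

open Finset Filter Topology

/-- Number of pairs in a common class, and more generally bilinear sums. -/
lemma sum_off_diag {V : Type} [DecidableEq V] (X : Finset V) (F : V → V → ℝ) :
    ∑ u ∈ X, ∑ v ∈ X.erase u, F u v = ∑ u ∈ X, ∑ v ∈ X, F u v - ∑ u ∈ X, F u u := by
  rw [← sum_sub_distrib]
  apply sum_congr rfl
  intro u hu
  rw [← add_sum_erase X _ hu]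
  ring

/-- `∑_{u,v} [f u = f v] = ∑_i m_i^2`. -/
lemma sum_same {V ι : Type} [DecidableEq ι] (X : Finset V) (f : V → ι) (T : Finset ι)
    (hf : ∀ u ∈ X, f u ∈ T) :
    ∑ u ∈ X, ∑ v ∈ X, (if f u = f v then (1 : ℝ) else 0) =
      ∑ i ∈ T, ((X.filter fun u => f u = i).card : ℝ) ^ 2 := by
  have h1 : ∀ u ∈ X, ∑ v ∈ X, (if f u = f v then (1 : ℝ) else 0) =
      ((X.filter fun v => f v = f u).card : ℝ) := by
    intro u _
    rw [← sum_boole]
    exact sum_congr rfl fun v _ => by simp only [eq_comm]
  rw [sum_congr rfl h1, ← sum_fiberwise_of_maps_to hf]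
  apply sum_congr rfl
  intro i _
  have h2 : ∀ u ∈ X.filter (fun u => f u = i), ((X.filter fun v => f v = f u).card : ℝ) =
      ((X.filter fun v => f v = i).card : ℝ) := by
    intro u hu
    rw [(mem_filter.1 hu).2]
  rw [sum_congr rfl h2, sum_const, nsmul_eq_mul, sq]

/-- The pair sum of a weighting with three parts. -/
lemma part_sum {V : Type} [DecidableEq V] (X : Finset V) (f : V → ℕ) (hf : ∀ v ∈ X, f v < 3)
    (x0 x1 x2 : ℝ) :
    ∑ u ∈ X, ∑ v ∈ X.erase u, (if f u = f v then (if f u = 0 then x0 else x1) else x2) =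
      x2 * (X.card * (X.card - 1)) +
      (x0 - x2) * ((X.filter fun v => f v = 0).card * ((X.filter fun v => f v = 0).card - 1)) +
      (x1 - x2) * ((X.filter fun v => f v = 1).card * ((X.filter fun v => f v = 1).card - 1) +
        (X.filter fun v => f v = 2).card * ((X.filter fun v => f v = 2).card - 1)) := by
  set e : ℕ → V → ℝ := fun i u => if f u = i then 1 else 0 with he
  have hm : ∀ i, ∑ u ∈ X, e i u = ((X.filter fun v => f v = i).card : ℝ) := by
    intro i
    simp only [he]
    rw [sum_boole]
  have h1 : ∀ u ∈ X, ∀ v ∈ X, (if f u = f v then (if f u = 0 then x0 else x1) else x2) =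
      x2 + (x0 - x2) * (e 0 u * e 0 v) + (x1 - x2) * (e 1 u * e 1 v + e 2 u * e 2 v) := by
    intro u hu v hv
    have h2 := hf u hu
    have h3 := hf v hv
    simp only [he]
    interval_cases h4 : f u <;> interval_cases h5 : f v <;> simp
  rw [sum_off_diag]
  have h2 : ∑ u ∈ X, ∑ v ∈ X, (if f u = f v then (if f u = 0 then x0 else x1) else x2) =
      x2 * (X.card * X.card) + (x0 - x2) * ((∑ u ∈ X, e 0 u) * (∑ u ∈ X, e 0 u)) +
      (x1 - x2) * ((∑ u ∈ X, e 1 u) * (∑ u ∈ X, e 1 u) + (∑ u ∈ X, e 2 u) * (∑ u ∈ X, e 2 u)) := by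
    rw [sum_congr rfl fun u hu => sum_congr rfl fun v hv => h1 u hu v hv]
    simp only [sum_add_distrib, ← mul_sum, sum_const, nsmul_eq_mul, ← sum_mul]
    ring
  have h3 : ∑ u ∈ X, (if f u = f u then (if f u = 0 then x0 else x1) else x2) =
      x2 * X.card + (x0 - x2) * (∑ u ∈ X, e 0 u) +
      (x1 - x2) * ((∑ u ∈ X, e 1 u) + (∑ u ∈ X, e 2 u)) := by
    have h4 : ∀ u ∈ X, (if f u = f u then (if f u = 0 then x0 else x1) else x2) =
        x2 + (x0 - x2) * e 0 u + (x1 - x2) * (e 1 u + e 2 u) := by
      intro u hu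
      have h5 := hf u hu
      simp only [he]
      interval_cases h6 : f u <;> simp
    rw [sum_congr rfl h4]
    simp only [sum_add_distrib, ← mul_sum, sum_const, nsmul_eq_mul]
    ring
  rw [h2, h3, hm, hm, hm]
  ring

/-- Sizes of the three parts add up. -/
lemma part_card {V : Type} [DecidableEq V] (X : Finset V) (f : V → ℕ) (hf : ∀ v ∈ X, f v < 3) :
    (X.filter fun v => f v = 0).card + (X.filter fun v => f v = 1).card +
      (X.filter fun v => f v = 2).card = X.card := by
  have h := card_eq_sum_card_fiberwise (s := X) (t := range 3) (f := f)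
    (fun v hv => by simpa using hf v hv)
  rw [h]
  simp [sum_range_succ]

/-- Existence of a partition with prescribed sizes. -/
lemma exists_part3 (m0 m1 m2 n : ℕ) (h : m0 + m1 + m2 = n) :
    ∃ f : Fin n → ℕ, (∀ v, f v < 3) ∧
      (univ.filter fun v => f v = 0).card = m0 ∧ (univ.filter fun v => f v = 1).card = m1 ∧
      (univ.filter fun v => f v = 2).card = m2 := by
  have key : ∀ p : ℕ → Prop, ∀ [DecidablePred p],
      ((univ : Finset (Fin n)).filter fun v : Fin n => p v.val).card = ((range n).filter p).card := by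
    intro p _
    rw [card_filter, card_filter]
    exact Fin.sum_univ_eq_sum_range (fun i => if p i then 1 else 0) n
  refine ⟨fun v => if v.val < m0 then 0 else if v.val < m0 + m1 then 1 else 2, ?_, ?_, ?_, ?_⟩
  · intro v
    dsimp only
    split_ifs <;> omega
  · refine (key fun i => (if i < m0 then 0 else if i < m0 + m1 then 1 else 2) = 0).trans ?_
    have : (range n).filter (fun i => (if i < m0 then 0 else if i < m0 + m1 then 1 else 2) = 0) =
        range m0 := by
      ext i
      simp only [mem_filter, mem_range]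
      by_cases h1 : i < m0 <;> by_cases h2 : i < m0 + m1 <;> simp [h1, h2] <;> omega
    rw [this, card_range]
  · refine (key fun i => (if i < m0 then 0 else if i < m0 + m1 then 1 else 2) = 1).trans ?_
    have : (range n).filter (fun i => (if i < m0 then 0 else if i < m0 + m1 then 1 else 2) = 1) =
        Ico m0 (m0 + m1) := by
      ext i
      simp only [mem_filter, mem_range, mem_Ico]
      by_cases h1 : i < m0 <;> by_cases h2 : i < m0 + m1 <;> simp [h1, h2] <;> omega
    rw [this, Nat.card_Ico]
    omega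
  · refine (key fun i => (if i < m0 then 0 else if i < m0 + m1 then 1 else 2) = 2).trans ?_
    have : (range n).filter (fun i => (if i < m0 then 0 else if i < m0 + m1 then 1 else 2) = 2) =
        Ico (m0 + m1) n := by
      ext i
      simp only [mem_filter, mem_range, mem_Ico]
      by_cases h1 : i < m0 <;> by_cases h2 : i < m0 + m1 <;> simp [h1, h2] <;> omega
    rw [this, Nat.card_Ico]
    omega

end Pool.Agent.H.MP_529160_co
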