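import Pool.Agent.H.MP_529160_co.TSums

/-!
The construction beating `T_{3,1}(2,n)`: the multiplicity of `{u, v}` is
`3 - [u ≡ v mod 3] - [u ≡ v mod 14]`.
-/

namespace Pool.Agent.H.MP_529160_co

open Finset Filter Topology

/-- The construction. -/
def rook (n : ℕ) (u v : Fin n) : ℕ :=
  3 - (if u.val % 3 = v.val % 3 then 1 else 0) - (if u.val % 14 = v.val % 14 then 1 else 0)

lemma rook_symm (n : ℕ) (u v : Fin n) : rook n u v = rook n v u := by
  unfold rook
  simp only [eq_comm]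

lemma rook_pos (n : ℕ) (u v : Fin n) : 1 ≤ rook n u v := by
  unfold rook
  split_ifs <;> omega

lemma sym_rook (n : ℕ) (u v : Fin n) : sym (rook n) u v = rook n u v := by
  unfold sym
  split_ifs
  · rfl
  · exact rook_symm n v u

lemma cs_bound {V : Type} (X : Finset V) (f : V → ℕ) (m : ℕ) (hf : ∀ u ∈ X, f u ∈ range m) :
    (X.card : ℝ) ^ 2 ≤ m * ∑ u ∈ X, ∑ v ∈ X, (if f u = f v then (1 : ℝ) else 0) := by
  rw [sum_same X f (range m) hf]
  have h := sq_sum_le_card_mul_sum_sq (s := range m)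
    (f := fun i => ((X.filter fun u => f u = i).card : ℝ))
  rw [card_range] at h
  refine le_trans (le_of_eq ?_) h
  congr 1
  rw [card_eq_sum_card_fiberwise hf]
  push_cast
  rfl

lemma rook_edgeSum {n : ℕ} (X : Finset (Fin n)) :
    2 * (edgeSum (rook n) X : ℝ) ≤
      3 * (X.card * (X.card - 1)) - (17 / 42) * (X.card : ℝ) ^ 2 + 2 * X.card := by
  rw [two_edgeSum]
  have h1 : ∑ u ∈ X, ∑ v ∈ X.erase u, (sym (rook n) u v : ℝ) =
      ∑ u ∈ X, ∑ v ∈ X.erase u, ((3 : ℝ) - (if u.val % 3 = v.val % 3 then (1 : ℝ) else 0) -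
        (if u.val % 14 = v.val % 14 then (1 : ℝ) else 0)) := by
    apply sum_congr rfl
    intro u _
    apply sum_congr rfl
    intro v _
    rw [sym_rook]
    unfold rook
    split_ifs <;> norm_num
  rw [h1, sum_off_diag]
  have h3 := cs_bound X (fun u : Fin n => u.val % 3) 3 (fun u _ => by
    rw [mem_range]; exact Nat.mod_lt _ (by norm_num))
  have h14 := cs_bound X (fun u : Fin n => u.val % 14) 14 (fun u _ => by
    rw [mem_range]; exact Nat.mod_lt _ (by norm_num))
  simp only [sum_sub_distrib, sum_const, nsmul_eq_mul, if_true, mul_one]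
  push_cast at h3 h14
  nlinarith

lemma SigmaMax_ge (s : ℕ) :
    3 * ((s : ℝ) * (s - 1)) - 2 / 5 * ((s : ℝ) ^ 2 - 3 * s + 2) ≤ 2 * (SigmaMax 3 1 2 s : ℝ) := by
  have key : ∀ m0 m1 m2 : ℕ, m0 + m1 + m2 = s →
      2 * ((m0 : ℝ) * (m0 - 1)) + (m1 * (m1 - 1) + m2 * (m2 - 1)) ≤
        2 / 5 * ((s : ℝ) ^ 2 - 3 * s + 2) →
      3 * ((s : ℝ) * (s - 1)) - 2 / 5 * ((s : ℝ) ^ 2 - 3 * s + 2) ≤
        2 * (SigmaMax 3 1 2 s : ℝ) := by
    intro m0 m1 m2 hm hle
    obtain ⟨f, hf1, c0, c1, c2⟩ := exists_part3 m0 m1 m2 s hm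
    have h1 := two_edgeSum_InT (a := 2) (by norm_num) hf1
      (w := fun u v => if f u = f v then (if f u = 0 then 2 - 1 else 2) else 2 + 1)
      (fun u v _ => rfl)
    rw [c0, c1, c2] at h1
    have h2 : edgeSum (fun u v => if f u = f v then (if f u = 0 then 2 - 1 else 2) else 2 + 1)
        univ ≤ SigmaMax 3 1 2 s := le_SigmaMax ⟨f, hf1, fun u v _ => rfl⟩
    have h3 : (edgeSum (fun u v => if f u = f v then (if f u = 0 then 2 - 1 else 2) else 2 + 1)
        univ : ℝ) ≤ SigmaMax 3 1 2 s := by exact_mod_cast h2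
    push_cast at h1
    linarith
  obtain ⟨m, hm⟩ : ∃ m, m = s / 5 := ⟨_, rfl⟩
  have hcases : s = 5 * m ∨ s = 5 * m + 1 ∨ s = 5 * m + 2 ∨ s = 5 * m + 3 ∨ s = 5 * m + 4 := by
    omega
  rcases hcases with h | h | h | h | h
  · apply key m (2 * m) (2 * m) (by omega)
    rw [h]; push_cast; nlinarith
  · apply key m (2 * m + 1) (2 * m) (by omega)
    rw [h]; push_cast; nlinarith
  · apply key m (2 * m + 1) (2 * m + 1) (by omega)
    rw [h]; push_cast; nlinarith
  · apply key (m + 1) (2 * m + 1) (2 * m + 1) (by omega)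
    rw [h]; push_cast; nlinarith
  · apply key (m + 1) (2 * m + 2) (2 * m + 1) (by omega)
    rw [h]; push_cast; nlinarith

/-- For `s ≥ 169` the construction is an `(s, Σ_{3,1}(2,s))`-graph. -/
lemma rook_isSQ {n s : ℕ} (hs : 169 ≤ s) : IsSQ (rook n) s (SigmaMax 3 1 2 s) := by
  intro X hX
  have h1 := rook_edgeSum X
  rw [hX] at h1
  have h2 := SigmaMax_ge s
  have hs' : (169 : ℝ) ≤ s := by exact_mod_cast hs
  have h3 : 2 * (edgeSum (rook n) X : ℝ) ≤ 2 * (SigmaMax 3 1 2 s : ℝ) := by nlinarith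
  have h4 : (edgeSum (rook n) X : ℝ) ≤ SigmaMax 3 1 2 s := by linarith
  exact_mod_cast h4

lemma card_mod (m k i : ℕ) (hi : i < m) :
    ((univ : Finset (Fin (m * k))).filter fun u : Fin (m * k) => u.val % m = i).card = k := by
  have key : ((univ : Finset (Fin (m * k))).filter fun u : Fin (m * k) => u.val % m = i).card =
      ((range (m * k)).filter fun u => u % m = i).card := by
    rw [card_filter, card_filter]
    exact Fin.sum_univ_eq_sum_range (fun u => if u % m = i then 1 else 0) (m * k)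
  rw [key, ← Nat.count_eq_card_filter_range]
  have h := Nat.count_modEq_card (m * k) (show 0 < m by omega) i
  have h2 : (fun u => u % m = i) = (fun u => u ≡ i [MOD m]) := by
    funext u
    unfold Nat.ModEq
    rw [Nat.mod_eq_of_lt hi]
  have h3 : Nat.count (fun u => u % m = i) (m * k) = Nat.count (fun u => u ≡ i [MOD m]) (m * k) := by
    congr 1
  rw [h3, h, Nat.mul_mod_right, Nat.mul_div_cancel_left _ (by omega)]
  simp

end Pool.Agent.H.MP_529160_co
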