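import Pool.Agent.H.MP_529160_co.Base

/-!
The structural part of the base case.
-/

namespace Pool.Agent.H.MP_529160_co

open Finset

section

variable {V : Type} [DecidableEq V]

/-- Twice the deficits of the extremal configuration. -/
def cT (r k : ℕ) : ℤ := if k ≤ r then 0 else if k < 2 * r then 2 * ((k : ℤ) - r) else 2 * (r + 1)

/-- A complete `r`-partite substructure with part sizes between `1` and `3`: multiplicity `a`
inside the parts and `a + 1` between them. -/
def Str (r a : ℕ) (w : V → V → ℕ) (S X : Finset V) (f : V → Fin r) : Prop :=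
  X ⊆ S ∧ (∀ u ∈ X, ∀ v ∈ X, u ≠ v → w u v = if f u = f v then a else a + 1) ∧
  ∀ i, 1 ≤ (X.filter (fun u => f u = i)).card ∧ (X.filter (fun u => f u = i)).card ≤ 3

lemma sum_chord {r a : ℕ} (ha : 1 ≤ a) (w : V → V → ℕ) {S X : Finset V} {z : V}
    (hpos : ∀ u ∈ S, ∀ v ∈ S, u ≠ v → 1 ≤ w u v) (hX : X ⊆ S) (hz : z ∈ S) (hzX : z ∉ X) :
    gap a * (dz a w X z : ℝ) ≤ ∑ u ∈ X, (Real.log (a + 1) - Real.log (w u z)) := by
  unfold dz
  push_cast
  rw [mul_sum]
  apply sum_le_sum
  intro u hu
  have hne : u ≠ z := fun h => hzX (h ▸ hu)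
  exact log_le_chord ha (hpos u (hX hu) z hz hne)

/-- The deficit conditions for all sizes at most `2r`. -/
lemma clean {r a M : ℕ} (hr : 2 ≤ r) (ha : 2 ≤ a) (hM1 : 1 ≤ M) (w : V → V → ℕ)
    (hs : ∀ u v, w u v = w v u) {S : Finset V}
    (hpos : ∀ u ∈ S, ∀ v ∈ S, u ≠ v → 1 ≤ w u v)
    (hM : ∀ u ∈ S, ∀ v ∈ S, u ≠ v → w u v ≤ M)
    (hP : ∀ X ⊆ S, X.card = 2 * r → 2 * ((r : ℤ) + 1) ≤ cost2 a w X)
    (hno : ¬ ∃ u ∈ S, deg w S u ≤ rate r a * S.card + 3 * r * Real.log M) :
    ∀ k ≤ 2 * r, ∀ X ⊆ S, X.card = k → cT r k ≤ cost2 a w X := by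
  have key : ∀ j ≤ 2 * r, ∀ X ⊆ S, X.card = 2 * r - j → cT r (2 * r - j) ≤ cost2 a w X := by
    intro j
    induction j with
    | zero =>
      intro _ X hX hc
      have := hP X hX (by simpa using hc)
      have h0 : cT r (2 * r - 0) = 2 * ((r : ℤ) + 1) := by
        unfold cT
        rw [if_neg (by omega), if_neg (by omega)]
      rw [h0]
      exact this
    | succ j ih =>
      intro hj X hX hc
      obtain ⟨k, hk⟩ : ∃ k, k = 2 * r - (j + 1) := ⟨_, rfl⟩
      have hk1 : 2 * r - j = k + 1 := by omega
      have hkr : k < 2 * r := by omega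
      rw [← hk] at hc ⊢
      rw [hk1] at ih
      by_contra hlt
      rw [not_le] at hlt
      have hk0 : 1 ≤ k := by
        rcases Nat.eq_zero_or_pos k with h0 | h0
        · rw [h0] at hc hlt
          rw [card_eq_zero] at hc
          rw [hc] at hlt
          simp [cT, cost2] at hlt
        · exact h0
      -- the increment
      obtain ⟨m, hm, hmr⟩ : ∃ m : ℕ, cT r (k + 1) - cT r k = 2 * (m : ℤ) ∧
          (k : ℝ) / (m + 1) ≤ (r : ℝ) - 1 + 1 / tau a := by
        have htau := two_le_tau ha
        have hpos' : 0 < 1 / tau a := by positivity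
        rcases lt_or_ge k r with h1 | h1
        · refine ⟨0, ?_, ?_⟩
          · unfold cT
            rw [if_pos (by omega), if_pos (by omega)]
            simp
          · have : (k : ℝ) + 1 ≤ r := by exact_mod_cast h1
            simp only [Nat.cast_zero, zero_add, div_one]
            linarith
        · rcases lt_or_ge (k + 1) (2 * r) with h2 | h2
          · refine ⟨1, ?_, ?_⟩
            · unfold cT
              rw [if_neg (by omega), if_pos (by omega)]
              rcases eq_or_lt_of_le h1 with h3 | h3
              · rw [if_pos (by omega)]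
                rw [← h3]; push_cast; ring
              · rw [if_neg (by omega), if_pos (by omega)]
                push_cast; ring
            · have : (k : ℝ) + 2 ≤ 2 * r := by exact_mod_cast h2
              have e : (k : ℝ) / ((1 : ℕ) + 1) = k / 2 := by norm_num
              rw [e]
              linarith
          · have h3 : k + 1 = 2 * r := by omega
            refine ⟨2, ?_, ?_⟩
            · unfold cT
              rw [if_neg (by omega), if_neg (by omega), if_neg (by omega), if_pos (by omega)]
              have : (k : ℤ) = 2 * r - 1 := by omega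
              rw [this]; push_cast; ring
            · have h4 : (k : ℝ) + 1 = 2 * r := by exact_mod_cast h3
              have h5 : (2 : ℝ) ≤ r := by exact_mod_cast hr
              have e : (k : ℝ) / ((2 : ℕ) + 1) = k / 3 := by norm_num
              rw [e]
              linarith
      apply hno
      have hne : X.Nonempty := by
        rw [← card_pos, hc]; omega
      refine good_imp hr ha hM1 w hM hX hne (by omega) (fun _ => 1 / ((m : ℝ) + 1))
        (fun _ _ => by positivity) ?_ ?_
      · rw [sum_const, nsmul_eq_mul, hc, mul_one_div]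
        exact hmr
      · intro z hz
        rw [mem_sdiff] at hz
        have h1 := ih (by omega) (insert z X) (insert_subset hz.1 hX)
          (by rw [card_insert_of_notMem hz.2, hc])
        rw [cost2_insert a w hs hz.2] at h1
        have h2 : (m : ℤ) + 1 ≤ dz a w X z := by omega
        have h3 : (m : ℝ) + 1 ≤ (dz a w X z : ℝ) := by exact_mod_cast h2
        have h4 := sum_chord (r := r) (show 1 ≤ a by omega) w hpos hX hz.1 hz.2
        rw [← mul_sum]
        have hg := gap_pos (show 1 ≤ a by omega)
        have h5 : gap a * ((m : ℝ) + 1) ≤ ∑ u ∈ X, (Real.log (a + 1) - Real.log (w u z)) :=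
          le_trans (mul_le_mul_of_nonneg_left h3 hg.le) h4
        rw [one_div, ← div_eq_inv_mul, le_div_iff₀ (by positivity)]
        exact h5
  intro k hk X hX hc
  have := key (2 * r - k) (by omega) X hX (by omega)
  rwa [show 2 * r - (2 * r - k) = k by omega] at this

end

end Pool.Agent.H.MP_529160_co
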