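import Pool.Agent.H.MP_529160_co.Struct

/-!
Existence of a maximal complete `r`-partite substructure.
-/

namespace Pool.Agent.H.MP_529160_co

open Finset

section

variable {V : Type} [DecidableEq V]

lemma cost2_clique {a : ℕ} {w : V → V → ℕ} {X : Finset V}
    (h : ∀ u ∈ X, ∀ v ∈ X, u ≠ v → w u v = a + 1) : cost2 a w X = 0 := by
  unfold cost2
  apply sum_eq_zero
  intro u hu
  apply sum_eq_zero
  intro v hv
  rw [mem_erase] at hv
  rw [h u hu v hv.2 (Ne.symm hv.1)]
  push_cast; ring

lemma w_le {r a : ℕ} (hr : 2 ≤ r) {w : V → V → ℕ} (hs : ∀ u v, w u v = w v u) {S : Finset V}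
    (hc : ∀ k ≤ 2 * r, ∀ X ⊆ S, X.card = k → cT r k ≤ cost2 a w X) {u v : V} (hu : u ∈ S)
    (hv : v ∈ S) (huv : u ≠ v) : w u v ≤ a + 1 := by
  have h1 := hc 2 (by omega) {u, v} (by
    intro x hx
    rw [mem_insert, mem_singleton] at hx
    rcases hx with rfl | rfl <;> assumption) (card_pair huv)
  have h2 : cT r 2 = 0 := by unfold cT; rw [if_pos hr]
  have h3 : cost2 a w {u, v} = 2 * ((a : ℤ) + 1 - w v u) := by
    rw [cost2_insert a w hs (by simpa using huv)]
    simp [cost2, dz]
  rw [h2, h3, hs] at h1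
  omega

lemma no_clique {r a : ℕ} (hr : 2 ≤ r) {w : V → V → ℕ} {S : Finset V}
    (hc : ∀ k ≤ 2 * r, ∀ X ⊆ S, X.card = k → cT r k ≤ cost2 a w X) {X : Finset V} (hX : X ⊆ S)
    (hcard : r + 1 ≤ X.card) (h : ∀ u ∈ X, ∀ v ∈ X, u ≠ v → w u v = a + 1) : False := by
  obtain ⟨Y, hY, hYc⟩ := exists_subset_card_eq hcard
  have h1 := hc (r + 1) (by omega) Y (hY.trans hX) hYc
  have h2 : cT r (r + 1) = 2 := by
    unfold cT; rw [if_neg (by omega), if_pos (by omega)]; push_cast; ring
  rw [h2, cost2_clique fun u hu v hv => h u (hY hu) v (hY hv)] at h1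
  omega

lemma gap_le_of_le {a w : ℕ} (ha : 1 ≤ a) (hw : 1 ≤ w) (hwa : w ≤ a) :
    gap a ≤ Real.log (a + 1) - Real.log w := by
  have h1 := log_le_chord ha hw
  have h2 : (w : ℝ) ≤ a := by exact_mod_cast hwa
  have hg := gap_pos ha
  nlinarith

lemma psi_nonneg {a w : ℕ} (hw : 1 ≤ w) (hwa : w ≤ a + 1) :
    0 ≤ Real.log (a + 1) - Real.log w := by
  have h' : (0 : ℝ) < w := by exact_mod_cast hw
  have h2 : (w : ℝ) ≤ a + 1 := by exact_mod_cast hwa
  have := Real.log_le_log h' h2
  linarith

/-- Every pair of distinct elements of `K` has multiplicity `a + 1`. -/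
def Clq (a : ℕ) (w : V → V → ℕ) (K : Finset V) : Prop :=
  ∀ u ∈ K, ∀ v ∈ K, u ≠ v → w u v = a + 1

lemma exists_str {r a M : ℕ} (hr : 2 ≤ r) (ha : 2 ≤ a) (w : V → V → ℕ)
    (hs : ∀ u v, w u v = w v u) {S : Finset V} (hS : S.Nonempty)
    (hpos : ∀ u ∈ S, ∀ v ∈ S, u ≠ v → 1 ≤ w u v)
    (hM : ∀ u ∈ S, ∀ v ∈ S, u ≠ v → w u v ≤ M)
    (hc : ∀ k ≤ 2 * r, ∀ X ⊆ S, X.card = k → cT r k ≤ cost2 a w X)
    (hM1 : 1 ≤ M)
    (hno : ¬ ∃ u ∈ S, deg w S u ≤ rate r a * S.card + 3 * r * Real.log M) :
    ∃ X f, Str r a w S X f := by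
  classical
  obtain ⟨K, hK, hKmax⟩ := exists_max_image
    (S.powerset.filter (Clq a w)) card
    ⟨∅, by simp [Clq]⟩
  rw [mem_filter, mem_powerset] at hK
  obtain ⟨hKS, hKc⟩ := hK
  have hle : K.card ≤ r := by
    by_contra h
    exact no_clique hr hc hKS (by omega) hKc
  have hne : 1 ≤ K.card := by
    obtain ⟨x, hx⟩ := hS
    have := hKmax {x} (by
      rw [mem_filter, mem_powerset]
      refine ⟨by simpa using hx, ?_⟩
      intro u hu v hv huv
      rw [mem_singleton] at hu hv
      exact absurd (hu.trans hv.symm) huv)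
    simpa using this
  have heq : K.card = r := by
    by_contra hlt
    have hlt' : K.card + 1 ≤ r := by omega
    apply hno
    refine good_imp hr ha hM1 w hM hKS (card_pos.1 (by omega)) (by omega) (fun _ => 1)
      (fun _ _ => one_pos) ?_ ?_
    · have h1 : (K.card : ℝ) + 1 ≤ r := by exact_mod_cast hlt'
      have h2 := two_le_tau ha
      have h3 : 0 < 1 / tau a := by positivity
      simp only [sum_const, nsmul_eq_mul, mul_one]
      linarith
    · intro z hz
      rw [mem_sdiff] at hz
      have hex : ∃ u ∈ K, w u z ≤ a := by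
        by_contra hcon
        push Not at hcon
        have h1 : ∀ u ∈ K, w u z = a + 1 := fun u hu => by
          have h2 := hcon u hu
          have h3 := w_le hr hs hc (hKS hu) hz.1 (fun h => hz.2 (h ▸ hu))
          omega
        have h2 := hKmax (insert z K) (by
          rw [mem_filter, mem_powerset]
          refine ⟨insert_subset hz.1 hKS, ?_⟩
          intro u hu v hv huv
          rw [mem_insert] at hu hv
          rcases hu with rfl | hu
          · rcases hv with rfl | hv
            · exact absurd rfl huv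
            · rw [hs]; exact h1 v hv
          · rcases hv with rfl | hv
            · exact h1 u hu
            · exact hKc u hu v hv huv)
        rw [card_insert_of_notMem hz.2] at h2
        omega
      obtain ⟨u, hu, hua⟩ := hex
      have hne' : ∀ x ∈ K, x ≠ z := fun x hx h => hz.2 (h ▸ hx)
      have h4 : gap a ≤ 1 * (Real.log (a + 1) - Real.log (w u z)) := by
        rw [one_mul]
        exact gap_le_of_le (by omega) (hpos u (hKS hu) z hz.1 (hne' u hu)) hua
      refine h4.trans ?_
      refine single_le_sum (f := fun u => (1 : ℝ) * (Real.log (a + 1) - Real.log (w u z))) ?_ hu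
      intro x hx
      rw [one_mul]
      exact psi_nonneg (hpos x (hKS hx) z hz.1 (hne' x hx))
        (w_le hr hs hc (hKS hx) hz.1 (hne' x hx))
  -- the structure
  let e := equivFinOfCardEq heq
  refine ⟨K, fun u => if h : u ∈ K then e ⟨u, h⟩ else ⟨0, by omega⟩, hKS, ?_, ?_⟩
  · intro u hu v hv huv
    simp only [dif_pos hu, dif_pos hv]
    rw [if_neg]
    · exact hKc u hu v hv huv
    · intro h
      have := e.injective h
      exact huv (congrArg Subtype.val this)
  · intro i
    have : (K.filter fun u => (if h : u ∈ K then e ⟨u, h⟩ else ⟨0, by omega⟩) = i) =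
        {((e.symm i : K) : V)} := by
      ext u
      rw [mem_filter, mem_singleton]
      constructor
      · rintro ⟨hu, h⟩
        rw [dif_pos hu] at h
        rw [← h, Equiv.symm_apply_apply]
      · rintro rfl
        refine ⟨(e.symm i).2, ?_⟩
        rw [dif_pos (e.symm i).2]
        simp
    rw [this]
    simp

end

end Pool.Agent.H.MP_529160_co
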