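import Pool.Agent.H.MP_529160_co.Struct2

/-!
Analysis of a maximal complete `r`-partite substructure: the low degree vertex.
-/

namespace Pool.Agent.H.MP_529160_co

open Finset

section

variable {V : Type} [DecidableEq V]

lemma cost2_str {r a : ℕ} {w : V → V → ℕ} {S X : Finset V} {f : V → Fin r}
    (h : Str r a w S X f) {Y : Finset V} (hY : Y ⊆ X) :
    cost2 a w Y = ∑ u ∈ Y, (((Y.filter fun v => f v = f u).card : ℤ) - 1) := by
  unfold cost2
  apply sum_congr rfl
  intro u hu
  have h1 : ∀ v ∈ Y.erase u, ((a : ℤ) + 1 - w u v) = if f v = f u then 1 else 0 := by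
    intro v hv
    rw [mem_erase] at hv
    rw [h.2.1 u (hY hu) v (hY hv.2) (Ne.symm hv.1)]
    by_cases hf : f u = f v
    · rw [if_pos hf, if_pos hf.symm]; ring
    · rw [if_neg hf, if_neg (Ne.symm hf)]; push_cast; ring
  rw [sum_congr rfl h1, sum_boole]
  have h2 : (Y.erase u).filter (fun v => f v = f u) = (Y.filter fun v => f v = f u).erase u := by
    ext v; simp only [mem_filter, mem_erase]; tauto
  rw [h2, card_erase_of_mem (by simp [hu])]
  have h3 : 1 ≤ (Y.filter fun v => f v = f u).card :=
    card_pos.2 ⟨u, by simp [hu]⟩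
  push_cast [Nat.cast_sub h3]
  ring

/-- Selecting a subset of each part. -/
lemma select {r : ℕ} {X : Finset V} {f : V → Fin r} (g : Fin r → Finset V)
    (hg : ∀ i, g i ⊆ X.filter fun u => f u = i) :
    (univ.biUnion g) ⊆ X ∧ (∀ i, (univ.biUnion g).filter (fun u => f u = i) = g i) ∧
      (univ.biUnion g).card = ∑ i, (g i).card := by
  refine ⟨?_, ?_, ?_⟩
  · intro u hu
    rw [mem_biUnion] at hu
    obtain ⟨i, -, hi⟩ := hu
    exact (mem_filter.1 (hg i hi)).1
  · intro i
    ext u
    simp only [mem_filter, mem_biUnion, mem_univ, true_and]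
    constructor
    · rintro ⟨⟨j, hj⟩, hi⟩
      have := (mem_filter.1 (hg j hj)).2
      rw [← hi, this]; exact hj
    · intro hu
      exact ⟨⟨i, hu⟩, (mem_filter.1 (hg i hu)).2⟩
  · rw [card_biUnion]
    intro i _ j _ hij
    change Disjoint (g i) (g j)
    rw [disjoint_left]
    intro u hu hu'
    exact hij (((mem_filter.1 (hg i hu)).2).symm.trans (mem_filter.1 (hg j hu')).2)

/-- Some part is a singleton. -/
lemma exists_single {r a : ℕ} (hr : 2 ≤ r) {w : V → V → ℕ} {S X : Finset V} {f : V → Fin r}
    (hc : ∀ k ≤ 2 * r, ∀ X ⊆ S, X.card = k → cT r k ≤ cost2 a w X)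
    (h : Str r a w S X f) : ∃ i, (X.filter fun u => f u = i).card = 1 := by
  by_contra hcon
  push Not at hcon
  have h2 : ∀ i, 2 ≤ (X.filter fun u => f u = i).card := by
    intro i
    have h1 := (h.2.2 i).1
    have h2 := hcon i
    omega
  choose g hg hgc using fun i => exists_subset_card_eq (h2 i)
  obtain ⟨e1, e2, e3⟩ := select g hg
  have h3 : (univ.biUnion g).card = 2 * r := by
    rw [e3]
    simp [hgc, mul_comm]
  have h4 := hc (2 * r) le_rfl _ (e1.trans h.1) h3
  rw [cost2_str h e1] at h4
  have h5 : ∀ u ∈ univ.biUnion g,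
      ((((univ.biUnion g).filter fun v => f v = f u).card : ℤ) - 1) = 1 := by
    intro u _
    rw [e2 (f u), hgc]; norm_num
  rw [sum_congr rfl h5, sum_const, h3] at h4
  unfold cT at h4
  rw [if_neg (by omega), if_neg (by omega)] at h4
  simp only [mul_one, nsmul_eq_mul] at h4
  push_cast at h4
  omega

/-- A vertex outside has a part with no `a + 1` edge to it. -/
lemma exists_part {r a : ℕ} (hr : 2 ≤ r) {w : V → V → ℕ} (hs : ∀ u v, w u v = w v u)
    {S X : Finset V} {f : V → Fin r}
    (hc : ∀ k ≤ 2 * r, ∀ X ⊆ S, X.card = k → cT r k ≤ cost2 a w X)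
    (h : Str r a w S X f) {z : V} (hz : z ∈ S) (hzX : z ∉ X) :
    ∃ i, ∀ u ∈ X, f u = i → w u z ≤ a := by
  by_contra hcon
  push Not at hcon
  choose u hu hfu hw using hcon
  obtain ⟨e1, e2, e3⟩ := select (X := X) (f := f) (fun i => {u i}) (by
    intro i x hx
    rw [mem_singleton] at hx
    rw [hx, mem_filter]
    exact ⟨hu i, hfu i⟩)
  have hY : ∀ x ∈ univ.biUnion (fun i => ({u i} : Finset V)), x = u (f x) := by
    intro x hx
    have : x ∈ (univ.biUnion (fun i => ({u i} : Finset V))).filter (fun y => f y = f x) := by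
      rw [mem_filter]; exact ⟨hx, rfl⟩
    rw [e2] at this
    exact mem_singleton.1 this
  have hzY : z ∉ univ.biUnion (fun i => ({u i} : Finset V)) := fun h => hzX (e1 h)
  have hwz : ∀ x ∈ univ.biUnion (fun i => ({u i} : Finset V)), w x z = a + 1 := by
    intro x hx
    have h1 := hw (f x)
    rw [← hY x hx] at h1
    have h2 := w_le hr hs hc (h.1 (e1 hx)) hz (fun h => hzY (h ▸ hx))
    omega
  refine no_clique hr hc (X := insert z (univ.biUnion fun i => ({u i} : Finset V)))
    (insert_subset hz (e1.trans h.1)) ?_ ?_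
  · rw [card_insert_of_notMem hzY, e3]; simp
  · intro x hx y hy hxy
    rw [mem_insert] at hx hy
    rcases hx with rfl | hx
    · rcases hy with rfl | hy
      · exact absurd rfl hxy
      · rw [hs]; exact hwz y hy
    · rcases hy with rfl | hy
      · exact hwz x hx
      · rw [h.2.1 x (e1 hx) y (e1 hy) hxy, if_neg]
        intro hf
        apply hxy
        rw [hY x hx, hY y hy, hf]

/-- Extension of a part of size at most two. -/
lemma extend {r a : ℕ} {w : V → V → ℕ} (hs : ∀ u v, w u v = w v u)
    {S X : Finset V} {f : V → Fin r} (h : Str r a w S X f) {z : V} (hz : z ∈ S) (hzX : z ∉ X)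
    {i : Fin r} (hi : (X.filter fun u => f u = i).card ≤ 2)
    (hw : ∀ u ∈ X, w u z = if f u = i then a else a + 1) :
    Str r a w S (insert z X) (Function.update f z i) := by
  have hf : ∀ u ∈ X, Function.update f z i u = f u := fun u hu =>
    Function.update_of_ne (fun e : u = z => hzX (e ▸ hu)) _ _
  refine ⟨insert_subset hz h.1, ?_, ?_⟩
  · intro u hu v hv huv
    rw [mem_insert] at hu hv
    rcases hu with rfl | hu
    · rcases hv with rfl | hv
      · exact absurd rfl huv
      · rw [Function.update_self, hf v hv, hs, hw v hv]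
        simp only [eq_comm]
    · rcases hv with rfl | hv
      · rw [Function.update_self, hf u hu, hw u hu]
      · rw [hf u hu, hf v hv]
        exact h.2.1 u hu v hv huv
  · intro j
    have h1 : (insert z X).filter (fun u => Function.update f z i u = j) =
        if i = j then insert z (X.filter fun u => f u = j) else X.filter fun u => f u = j := by
      ext x
      by_cases hij : i = j
      · rw [if_pos hij]
        simp only [mem_filter, mem_insert]
        constructor
        · rintro ⟨rfl | hx, h2⟩
          · exact Or.inl rfl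
          · rw [hf x hx] at h2; exact Or.inr ⟨hx, h2⟩
        · rintro (rfl | ⟨hx, h2⟩)
          · exact ⟨Or.inl rfl, by rw [Function.update_self, hij]⟩
          · exact ⟨Or.inr hx, by rw [hf x hx, h2]⟩
      · rw [if_neg hij]
        simp only [mem_filter, mem_insert]
        constructor
        · rintro ⟨rfl | hx, h2⟩
          · rw [Function.update_self] at h2; exact absurd h2 hij
          · rw [hf x hx] at h2; exact ⟨hx, h2⟩
        · rintro ⟨hx, h2⟩
          exact ⟨Or.inr hx, by rw [hf x hx, h2]⟩
    rw [h1]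
    have h2 := h.2.2 j
    split_ifs with hij
    · subst hij
      have h3 : z ∉ X.filter fun u => f u = i := fun h => hzX (mem_filter.1 h).1
      rw [card_insert_of_notMem h3]
      omega
    · exact h2

end

end Pool.Agent.H.MP_529160_co
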