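import Pool.Agent.H.MP_529160_co.Parts

/-!
Sums and products of the members of `T_{3,1}(a,n)`.
-/

namespace Pool.Agent.H.MP_529160_co

open Finset Filter Topology

lemma sym_InT {n a d : ℕ} {w : Fin n → Fin n → ℕ} {f : Fin n → ℕ}
    (hf : ∀ u v, u < v → w u v = if f u = f v then (if f u = 0 then a - d else a) else a + 1)
    {u v : Fin n} (h : u ≠ v) :
    sym w u v = if f u = f v then (if f u = 0 then a - d else a) else a + 1 := by
  unfold sym
  rcases lt_or_gt_of_ne h with h1 | h1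
  · rw [if_pos h1, hf u v h1]
  · rw [if_neg (not_lt.2 h1.le), hf v u h1]
    by_cases h2 : f u = f v
    · rw [if_pos h2, if_pos h2.symm, h2]
    · rw [if_neg h2, if_neg (Ne.symm h2)]

lemma two_edgeSum {n : ℕ} (w : Fin n → Fin n → ℕ) (X : Finset (Fin n)) :
    2 * (edgeSum w X : ℝ) = ∑ u ∈ X, ∑ v ∈ X.erase u, (sym w u v : ℝ) := by
  rw [sum_pairs (fun u v => (sym w u v : ℝ)) (fun u v => by rw [sym_comm'])]
  unfold edgeSum
  push_cast
  congr 1
  apply sum_congr rfl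
  intro p hp
  rw [sym_of_lt w (mem_filter.1 hp).2]

lemma two_edgeSum_InT {n a : ℕ} (ha : 1 ≤ a) {w : Fin n → Fin n → ℕ} {f : Fin n → ℕ}
    (hf1 : ∀ v, f v < 3)
    (hf : ∀ u v, u < v → w u v = if f u = f v then (if f u = 0 then a - 1 else a) else a + 1) :
    2 * (edgeSum w univ : ℝ) = ((a : ℝ) + 1) * (n * (n - 1)) -
      2 * ((univ.filter fun v => f v = 0).card * ((univ.filter fun v => f v = 0).card - 1)) -
      ((univ.filter fun v => f v = 1).card * ((univ.filter fun v => f v = 1).card - 1) +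
        (univ.filter fun v => f v = 2).card * ((univ.filter fun v => f v = 2).card - 1)) := by
  rw [two_edgeSum]
  have h1 : ∑ u ∈ (univ : Finset (Fin n)), ∑ v ∈ univ.erase u, (sym w u v : ℝ) =
      ∑ u ∈ (univ : Finset (Fin n)), ∑ v ∈ univ.erase u,
        (if f u = f v then (if f u = 0 then ((a : ℝ) - 1) else (a : ℝ)) else ((a : ℝ) + 1)) := by
    apply sum_congr rfl
    intro u _
    apply sum_congr rfl
    intro v hv
    rw [sym_InT hf (Ne.symm (mem_erase.1 hv).1)]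
    split_ifs
    · push_cast [Nat.cast_sub ha]; ring
    · rfl
    · push_cast; ring
  rw [h1, part_sum _ _ (fun v _ => hf1 v), card_univ, Fintype.card_fin]
  ring

lemma two_log_InT {n a : ℕ} (ha : 2 ≤ a) {w : Fin n → Fin n → ℕ} {f : Fin n → ℕ}
    (hf1 : ∀ v, f v < 3)
    (hf : ∀ u v, u < v → w u v = if f u = f v then (if f u = 0 then a - 1 else a) else a + 1) :
    2 * Real.log (edgeProd w) = Real.log (a + 1) * (n * (n - 1)) -
      tau a * gap a *
        ((univ.filter fun v => f v = 0).card * ((univ.filter fun v => f v = 0).card - 1)) -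
      gap a * ((univ.filter fun v => f v = 1).card * ((univ.filter fun v => f v = 1).card - 1) +
        (univ.filter fun v => f v = 2).card * ((univ.filter fun v => f v = 2).card - 1)) := by
  have hw : InT 3 1 a w := ⟨f, hf1, hf⟩
  rw [two_log_prod w (edgeProd_pos (hw.pos (by omega))).ne']
  unfold deg
  have h1 : ∑ u ∈ (univ : Finset (Fin n)), ∑ v ∈ univ.erase u, Real.log (sym w u v) =
      ∑ u ∈ (univ : Finset (Fin n)), ∑ v ∈ univ.erase u,
        (if f u = f v then (if f u = 0 then Real.log ((a : ℝ) - 1) else Real.log (a : ℝ))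
          else Real.log ((a : ℝ) + 1)) := by
    apply sum_congr rfl
    intro u _
    apply sum_congr rfl
    intro v hv
    rw [sym_InT hf (Ne.symm (mem_erase.1 hv).1)]
    split_ifs
    · push_cast [Nat.cast_sub (show 1 ≤ a by omega)]; ring_nf
    · rfl
    · push_cast; ring_nf
  rw [h1, part_sum _ _ (fun v _ => hf1 v), card_univ, Fintype.card_fin, tau_gap (by omega)]
  have hg : gap a = Real.log (a + 1) - Real.log a := rfl
  rw [hg]
  ring

/-- The maximal sum on six vertices. -/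
lemma SigmaMax_six {a : ℕ} (ha : 1 ≤ a) : SigmaMax 3 1 a 6 ≤ 15 * (a + 1) - 4 := by
  apply SigmaMax_le (by norm_num)
  rintro w ⟨f, hf1, hf2⟩
  have h := two_edgeSum_InT ha hf1 hf2
  have hc := part_card (univ : Finset (Fin 6)) f (fun v _ => hf1 v)
  rw [card_univ, Fintype.card_fin] at hc
  set m0 := (univ.filter fun v => f v = 0).card
  set m1 := (univ.filter fun v => f v = 1).card
  set m2 := (univ.filter fun v => f v = 2).card
  have h3 : (8 : ℝ) ≤ 2 * ((m0 : ℝ) * (m0 - 1)) + (m1 * (m1 - 1) + m2 * (m2 - 1)) := by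
    have h4 : m2 = 6 - m0 - m1 := by omega
    have h5 : m0 ≤ 6 := by omega
    have h6 : m1 ≤ 6 := by omega
    interval_cases m0 <;> interval_cases m1 <;> first | omega | (rw [h4]; norm_num)
  have h7 : 2 * (edgeSum w univ : ℝ) ≤ 30 * (a + 1) - 8 := by
    rw [h]
    push_cast
    linarith
  have h8 : (edgeSum w univ : ℝ) + 4 ≤ 15 * (a + 1) := by linarith
  have h9 : edgeSum w univ + 4 ≤ 15 * (a + 1) := by exact_mod_cast h8
  omega

/-- Lower bound for the extremal product. -/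
lemma PiMax_lower {a : ℕ} (ha : 2 ≤ a) (n : ℕ) :
    rate 3 a * (n : ℝ) ^ 2 - (Real.log (a + 1) + 4 * gap a) * n - 4 * gap a ≤
      2 * Real.log (PiMax 3 1 a n) := by
  have ht2 := two_le_tau ha
  have hg := gap_pos (show 1 ≤ a by omega)
  set t := tau a with ht
  set y : ℝ := 1 / (2 + 1 / t) with hy
  have htpos : 0 < t := by linarith
  have hypos : 0 < y := by positivity
  have hyeq : y * (2 + 1 / t) = 1 := by rw [hy]; field_simp
  have hy1 : y / t + 2 * y = 1 := by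
    have : y * (2 + 1 / t) = y / t + 2 * y := by ring
    linarith
  have hyt : 0 < y / t := by positivity
  obtain ⟨m0, hm0⟩ : ∃ m0, m0 = ⌊(n : ℝ) * (y / t)⌋₊ := ⟨_, rfl⟩
  obtain ⟨m1, hm1⟩ : ∃ m1, m1 = ⌊(n : ℝ) * y⌋₊ := ⟨_, rfl⟩
  have hn0 : (0 : ℝ) ≤ n := Nat.cast_nonneg n
  have a0 : (m0 : ℝ) ≤ n * (y / t) := by rw [hm0]; exact Nat.floor_le (by positivity)
  have a1 : (m1 : ℝ) ≤ n * y := by rw [hm1]; exact Nat.floor_le (by positivity)
  have b0 : (n : ℝ) * (y / t) < m0 + 1 := by rw [hm0]; exact Nat.lt_floor_add_one _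
  have b1 : (n : ℝ) * y < m1 + 1 := by rw [hm1]; exact Nat.lt_floor_add_one _
  have hle : m0 + m1 ≤ n := by
    have : (m0 : ℝ) + m1 ≤ n := by nlinarith
    exact_mod_cast this
  obtain ⟨f, hf1, c0, c1, c2⟩ := exists_part3 m0 m1 (n - (m0 + m1)) n (by omega)
  set w : Fin n → Fin n → ℕ := fun u v =>
    if f u = f v then (if f u = 0 then a - 1 else a) else a + 1 with hw
  have hInT : InT 3 1 a w := ⟨f, hf1, fun u v _ => rfl⟩
  have h1 := two_log_InT ha hf1 (w := w) (fun u v _ => rfl)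
  rw [c0, c1, c2] at h1
  have h2 : Real.log (edgeProd w) ≤ Real.log (PiMax 3 1 a n) := by
    apply Real.log_le_log
    · exact_mod_cast edgeProd_pos (hInT.pos (by omega))
    · exact_mod_cast le_PiMax hInT
  obtain ⟨m2, hm2⟩ : ∃ m2, m2 = n - (m0 + m1) := ⟨_, rfl⟩
  rw [← hm2] at h1
  have hm2' : (m2 : ℝ) = n - m0 - m1 := by
    rw [hm2, Nat.cast_sub hle]; push_cast; ring
  have a2 : (m2 : ℝ) ≤ n * y + 2 := by
    rw [hm2']
    have : (n : ℝ) = n * (y / t) + 2 * (n * y) := by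
      calc (n : ℝ) = n * (y / t + 2 * y) := by rw [hy1, mul_one]
        _ = _ := by ring
    linarith
  have p0 : (0 : ℝ) ≤ m0 := Nat.cast_nonneg _
  have p1 : (0 : ℝ) ≤ m1 := Nat.cast_nonneg _
  have p2 : (0 : ℝ) ≤ m2 := Nat.cast_nonneg _
  have s0 : t * (m0 : ℝ) ^ 2 ≤ t * (n * (y / t)) ^ 2 :=
    mul_le_mul_of_nonneg_left (pow_le_pow_left₀ p0 a0 2) htpos.le
  have s1 : (m1 : ℝ) ^ 2 ≤ (n * y) ^ 2 := pow_le_pow_left₀ p1 a1 2
  have s2 : (m2 : ℝ) ^ 2 ≤ (n * y + 2) ^ 2 := pow_le_pow_left₀ p2 a2 2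
  have hyle : y ≤ 1 := by linarith
  have e1 : t * (n * (y / t)) ^ 2 + (n * y) ^ 2 + (n * y) ^ 2 = (n : ℝ) ^ 2 * y := by
    have : t * (n * (y / t)) ^ 2 = (n : ℝ) ^ 2 * y * (y / t) := by
      field_simp
    rw [this]
    calc (n : ℝ) ^ 2 * y * (y / t) + (n * y) ^ 2 + (n * y) ^ 2 =
        (n : ℝ) ^ 2 * y * (y / t + 2 * y) := by ring
      _ = _ := by rw [hy1, mul_one]
  have s3 : t * (m0 : ℝ) ^ 2 + (m1 : ℝ) ^ 2 + (m2 : ℝ) ^ 2 ≤ (n : ℝ) ^ 2 * y + 4 * n + 4 := by
    have : (n * y + 2 : ℝ) ^ 2 ≤ (n * y) ^ 2 + 4 * n + 4 := by nlinarith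
    linarith
  have hrate : rate 3 a = Real.log (a + 1) - gap a * y := by
    unfold rate
    rw [hy, ← ht]
    norm_num
    ring
  rw [hrate]
  have hfin : gap a * (t * (m0 : ℝ) ^ 2 + (m1 : ℝ) ^ 2 + (m2 : ℝ) ^ 2) ≤
      gap a * ((n : ℝ) ^ 2 * y + 4 * n + 4) := mul_le_mul_of_nonneg_left s3 hg.le
  have q0 : 0 ≤ gap a * (t * m0) := by positivity
  have q1 : 0 ≤ gap a * (m1 : ℝ) := by positivity
  have q2 : 0 ≤ gap a * (m2 : ℝ) := by positivity
  nlinarith

end Pool.Agent.H.MP_529160_co
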